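import Pool.Agent.H38.EN.Nds
import Pool.Agent.H38.MT.BA
import Pool.Agent.H48.KV.Dsc
import Pool.Agent.H48.KV.Idx
import Pool.Agent.H38.WM.A4
import Pool.Agent.H38.BG.TCyc

/-!
# [H38 EN ADI] the discriminant for `A_4` in degree 4, 90-140 lines. File Pool/Agent/H38/EN/Adi.lean

`ds` = the function `d` of `dsc_form` (KV/Dsc.lean) for `n = 4`, `G = alternatingGroup (Fin 4)` (transitive: `a4_trans`, H38/WM/A4.lean), this `S` (a prime `v` with `4! = 24 ∈ v` is above 2 or 3); `LocInv` is its last clause. `indG G = 2` (search: `wr_indG`, or `a4_ind`; all elements `≠ 1` of `A_4` have index 2, by `decide` or as in H36/QA). For `φ` surjective of finite type and `χ = k.pi ∘ φ`: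
`T = rf Q S χ ∪ tf k Q S φ` (disjoint) is the set of the ramified primes outside `S`: if `l ∉ S` is ramified then either all elements of the inertia group have image in `V` (`l ∈ tf`), or some `φ σ ∉ V`, so `k.pi (φ σ) ≠ 1` by `hk` (`l ∈ rf`, `ba_mem`). Hypothesis of `dsc_form`: the image `J` of the inertia group at such `l` is cyclic, generated by some `x ≠ 1`: for `l ∈ tf` this is `ine_cyc` (KV/Idx.lean);
in general: `l` does not divide `#A_4 = 12`, `cyc` (H38/BG/TCyc.lean; see the use in KV/SmA.lean or `uinr_cyc` in H63/BU/UInr.lean for `Q`), so `4 - orbs (zpowers x) = ind x = 2`. (`nr_union` for the product; `nr T = ∏ nm`.)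
-/

set_option autoImplicit false

open scoped NumberField Classical
open IsDedekindDomain H38.ML H63.MA H48.KV H48.T3

noncomputable section

namespace H38.EN

private lemma tw_dec : ∀ g : Equiv.Perm (Fin 4), Equiv.Perm.sign g = 1 →
    ∃ i j : Fin 4, ∀ m : Fin 6, (g ^ (m : ℕ)) i ≠ j := by
  decide +kernel

private lemma six_dec : ∀ g : Equiv.Perm (Fin 4), Equiv.Perm.sign g = 1 → g ^ 6 = 1 := by
  decide +kernel

private theorem two_le (g : Equiv.Perm (Fin 4)) (hg : Equiv.Perm.sign g = 1) :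
    2 ≤ orbs (Subgroup.zpowers g) := by
  obtain ⟨i, j, hij⟩ := tw_dec g hg
  unfold orbs
  have hfin : Finite (MulAction.orbitRel.Quotient (Subgroup.zpowers g) (Fin 4)) := Quotient.finite _
  have hnt : Nontrivial (MulAction.orbitRel.Quotient (Subgroup.zpowers g) (Fin 4)) := by
    refine ⟨⟨Quotient.mk'' j, Quotient.mk'' i, fun h => ?_⟩⟩
    have h1 : (MulAction.orbitRel (Subgroup.zpowers g) (Fin 4)).r j i := Quotient.exact' h
    obtain ⟨⟨m, hm⟩, h2⟩ := MulAction.mem_orbit_iff.1 h1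
    obtain ⟨z, rfl⟩ := Subgroup.mem_zpowers_iff.1 hm
    have h3 : (g ^ z) i = j := h2
    have h6 : g ^ (6 : ℤ) = 1 := by
      have := six_dec g hg
      exact_mod_cast this
    have h4 : g ^ z = g ^ (z % 6).toNat := by
      have h5 : z = 6 * (z / 6) + z % 6 := (Int.mul_ediv_add_emod z 6).symm
      have h7 : ((z % 6).toNat : ℤ) = z % 6 := Int.toNat_of_nonneg (Int.emod_nonneg z (by norm_num))
      calc g ^ z = g ^ (6 * (z / 6) + z % 6) := by rw [← h5]
        _ = g ^ (z % 6) := by rw [zpow_add, zpow_mul, h6, one_zpow, one_mul]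
        _ = g ^ (((z % 6).toNat : ℕ) : ℤ) := by rw [h7]
        _ = g ^ (z % 6).toNat := zpow_natCast g _
    have h8 : (z % 6).toNat < 6 := by
      have h9 := Int.emod_lt_of_pos z (by norm_num : (0 : ℤ) < 6)
      omega
    rw [h4] at h3
    exact hij ⟨_, h8⟩ h3
  exact (Finite.one_lt_card_iff_nontrivial).2 hnt

private theorem orbs_z (x : alternatingGroup (Fin 4)) (hx : x ≠ 1) :
    orbs ((Subgroup.zpowers x).map (alternatingGroup (Fin 4)).subtype) = 2 := by
  have h1 : (Subgroup.zpowers x).map (alternatingGroup (Fin 4)).subtype =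
      Subgroup.zpowers (x : Equiv.Perm (Fin 4)) := by
    rw [MonoidHom.map_zpowers]
    rfl
  rw [h1]
  apply le_antisymm
  · refine H38.WM.a4_orbs _ ?_ ?_
    · rw [Subgroup.zpowers_le]
      exact x.2
    · rw [Ne, Subgroup.zpowers_eq_bot]
      intro h
      exact hx (Subtype.ext h)
  · exact two_le _ (Equiv.Perm.mem_alternatingGroup.1 x.2)

private theorem indG4 : H38.ML.indG (alternatingGroup (Fin 4)) = 2 := by
  have hall : ∀ g : Equiv.Perm (Fin 4), g ∈ alternatingGroup (Fin 4) → g ≠ 1 → H38.ML.ind g = 2 := by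
    intro g hg hg1
    have h1 := orbs_z ⟨g, hg⟩ (fun h => hg1 (congrArg Subtype.val h))
    have h2 : (Subgroup.zpowers (⟨g, hg⟩ : alternatingGroup (Fin 4))).map
        (alternatingGroup (Fin 4)).subtype = Subgroup.zpowers g := by
      rw [MonoidHom.map_zpowers]
      rfl
    rw [h2] at h1
    unfold H38.ML.ind
    rw [h1]
  have hne : {k | ∃ g ∈ alternatingGroup (Fin 4), g ≠ 1 ∧ H38.ML.ind g = k}.Nonempty := by
    have hs : Equiv.Perm.sign ((Equiv.swap 0 1 * Equiv.swap 1 2 : Equiv.Perm (Fin 4))) = 1 := by decide +kernel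
    have h1 : (Equiv.swap 0 1 * Equiv.swap 1 2 : Equiv.Perm (Fin 4)) ≠ 1 := by decide +kernel
    exact ⟨_, _, Equiv.Perm.mem_alternatingGroup.2 hs, h1, rfl⟩
  obtain ⟨g, hg, hg1, h⟩ := Nat.sInf_mem hne
  unfold H38.ML.indG
  rw [← h]
  exact hall g hg hg1

private theorem in24 {K : IntermediateField ℚ QBar} [NumberField K] (S : Finset (Pl K))
    (h2 : ∀ v : Pl K, Above 2 v → v ∈ S) (h3 : ∀ v : Pl K, Above 3 v → v ∈ S) (v : Pl K) {m : ℕ}
    (hm : m ∣ 24) (h : ((m : ℕ) : 𝓞 K) ∈ v.asIdeal) : v ∈ S := by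
  obtain ⟨n, hn⟩ := hm
  have hp := v.isPrime
  have h1 : ((24 : ℕ) : 𝓞 K) ∈ v.asIdeal := by
    rw [hn, Nat.cast_mul]
    exact Ideal.mul_mem_right _ _ h
  have e1 : ((24 : ℕ) : 𝓞 K) = ((2 : ℕ) : 𝓞 K) ^ 3 * ((3 : ℕ) : 𝓞 K) := by
    push_cast
    norm_num
  rw [e1] at h1
  rcases hp.mem_or_mem h1 with h4 | h4
  · exact h2 v (hp.mem_of_pow_mem 3 h4)
  · exact h3 v h4

variable {K : IntermediateField ℚ QBar} [NumberField K]

theorem adi (k : KV (alternatingGroup (Fin 4))) (hk : ∀ g, k.pi g = 1 → g ∈ k.V)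
    (S : Finset (Pl K)) (h2 : ∀ v : Pl K, Above 2 v → v ∈ S) (h3 : ∀ v : Pl K, Above 3 v → v ∈ S)
    (Q : DP K QBar) (i₀ : Fin 4) :
    ∃ ds : (Gal(QBar/K) →* alternatingGroup (Fin 4)) → ℕ, LocInv Q S ds ∧
      ∀ φ : Gal(QBar/K) →* alternatingGroup (Fin 4), FT φ → Function.Surjective φ →
        0 < ds φ ∧ (H38.ML.relDisc K (fieldOf i₀ φ) : ℝ) =
          ds φ * (H38.MT.cf Q S (k.pi.comp φ) * nr (tf k Q S φ)) ^ 2 := by
  obtain ⟨d, hd1, hd2⟩ := dsc_form (n := 4) (by norm_num) (alternatingGroup (Fin 4)) H38.WM.a4_trans K S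
    (fun v hv => in24 S h2 h3 v (by decide) hv) Q i₀
  refine ⟨d, hd2, fun φ hφ hs => ?_⟩
  have hfin : Finite (alternatingGroup (Fin 4)) := inferInstance
  have hin : ∀ v, v ∉ S → v ∈ H38.WM.Rm Q φ →
      4 - orbs ((((Q.P v).inertia Gal(QBar/K)).map φ).map (alternatingGroup (Fin 4)).subtype) =
        H38.ML.indG (alternatingGroup (Fin 4)) := by
    rintro v hv ⟨σ₀, hσ₀, hσ1⟩
    have hc : ((Nat.card (((Q.P v).inertia Gal(QBar/K)).map φ) : ℕ) : 𝓞 K) ∉ v.asIdeal := by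
      intro h
      apply hv
      refine in24 S h2 h3 v ?_ h
      refine (Subgroup.card_subgroup_dvd_card _).trans ?_
      have h5 := Subgroup.card_subgroup_dvd_card (alternatingGroup (Fin 4))
      have h6 : Nat.card (Equiv.Perm (Fin 4)) = 24 := by
        rw [Nat.card_perm, Nat.card_fin]
        rfl
      rwa [h6] at h5
    obtain ⟨τ, hτ, hcy⟩ := H38.BG.cyc v (Q.P v) (Q.prime v) (Q.under v) φ hφ hc
    have hJ : ((Q.P v).inertia Gal(QBar/K)).map φ = Subgroup.zpowers (φ τ) := by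
      apply le_antisymm
      · rintro _ ⟨σ, hσ, rfl⟩
        exact hcy σ hσ
      · rw [Subgroup.zpowers_le]
        exact ⟨τ, hτ, rfl⟩
    have hne : φ τ ≠ 1 := by
      intro h
      apply hσ1
      have h7 := hcy σ₀ hσ₀
      rwa [h, Subgroup.zpowers_one_eq_bot, Subgroup.mem_bot] at h7
    rw [hJ, orbs_z _ hne, indG4]
  obtain ⟨hpos, hform⟩ := hd1 φ hs hφ hin
  refine ⟨hpos, ?_⟩
  have hχ : FT (k.pi.comp φ) := ft_comp k.pi φ hφ
  have hdisj : Disjoint (H38.MT.rf Q S (k.pi.comp φ)) (tf k Q S φ) := by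
    rw [Finset.disjoint_left]
    intro v hv hv'
    obtain ⟨-, σ, hσ, h1⟩ := (H38.MT.ba_mem Q S hχ v).1 hv
    obtain ⟨-, -, h5⟩ := (tf_mem k Q S φ hφ v).1 hv'
    exact h1 (k.piV _ (h5 σ hσ))
  have hT : ∀ v, v ∈ H38.MT.rf Q S (k.pi.comp φ) ∪ tf k Q S φ ↔ v ∉ S ∧ v ∈ H38.WM.Rm Q φ := by
    intro v
    rw [Finset.mem_union, H38.MT.ba_mem Q S hχ v, tf_mem k Q S φ hφ v]
    constructor
    · rintro (⟨h1, σ, hσ, h5⟩ | ⟨h1, ⟨σ, hσ, h5⟩, -⟩)
      · refine ⟨h1, σ, hσ, fun h6 => h5 ?_⟩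
        rw [MonoidHom.comp_apply, h6, map_one]
      · exact ⟨h1, σ, hσ, h5⟩
    · rintro ⟨h1, σ, hσ, h5⟩
      by_cases h6 : ∀ σ ∈ (Q.P v).inertia Gal(QBar/K), φ σ ∈ k.V
      · exact Or.inr ⟨h1, ⟨σ, hσ, h5⟩, h6⟩
      · push Not at h6
        obtain ⟨σ', hσ', h7⟩ := h6
        exact Or.inl ⟨h1, σ', hσ', fun h8 => h7 (hk _ h8)⟩
  have h8 := hform _ hT
  rw [Finset.prod_union hdisj, indG4] at h8
  rw [h8]
  unfold H38.MT.cf nr
  push_cast
  rfl

end H38.EN
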