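import Pool.Agent.H48.KV.GrpC
import Pool.Agent.H36.QA.ResA
import Pool.Agent.H48.T3.Bet
import Pool.Agent.H38.ML.SpecBridge

/-!
# [H38 EN AKV] the group `A_4`, 60-100 lines. File Pool/Agent/H38/EN/Akv.lean

* `akv`: `kv_ex` (KV/GrpC.lean) for `V` = the Klein four subgroup of `A_4` (elements with `g ^ 2 = 1`; `Nat.card = 4`, normal, `G ⧸ V` of order 3 so nilpotent (commutative), `A_4` is not nilpotent: trivial centre, or because a nilpotent group is the product of its Sylow subgroups) gives `k` with `k.V = V`; `k.pi` is surjective onto a group of order 3 with `V ≤ ker`, and `[G : V] = 3`, so `ker k.pi = V` (`Subgroup.eq_of_le_of_card_ge`). Search the library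
  first: the W1 chapters (H38/WM/A4.lean, `a4_td`; H48/KV/Res.lean; H36/QA/L2a.lean .. L2c.lean) have the Klein four group of `A_4` and its properties; most facts are `decide` on `Equiv.Perm (Fin 4)`.
* `aind`: `Spec.indG (alternatingGroup (Fin 4)) = 2` and `betaAll = 3` if `K` contains a primitive cube root of unity. Search: `wr_indG`, `wr_beta` (H36/QA/WI3.lean), `a4_bound` (ResA.lean) with `m = 1`, `H = ⊤` in `Perm (Fin 1)`, or the W1 results (`Pool/Agent/Results/MP_b39724_nt/WeakMalleA4.lean`, H48/W1*; look for `betaAll` together with `alternatingGroup`). `betaAll` is `Nat.card` of the `Quot` of `{g // g ≠ 1 ∧ ind g = indG}` by `KConj K`: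
  all elements `≠ 1` have index 2; the relation `y = h x^a h⁻¹`, `a` the cyclotomic exponent (`≡ 1` mod 3 because `ω ∈ K`), so the classes are the conjugacy classes of `A_4` of elements `≠ 1`: `V`, and two classes of 3-cycles.
* `alow`: the lower bound, `a4_bound` with `m = 1` (`nK_le_spec` for the passage to `Spec.nK`).
-/

set_option autoImplicit false

open scoped NumberField Classical
open IsDedekindDomain H38.ML H63.MA H48.KV

noncomputable section

namespace H38.EN

private theorem akv_center : ∀ g : alternatingGroup (Fin 4), (∀ h : alternatingGroup (Fin 4), g * h * g⁻¹ * h⁻¹ = 1) → g = 1 := by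
  decide

private theorem akv_ucs (n : ℕ) : Subgroup.upperCentralSeries (alternatingGroup (Fin 4)) n = ⊥ := by
  induction n with
  | zero => exact Subgroup.upperCentralSeries_zero _
  | succ n ih =>
    rw [eq_bot_iff]
    intro x hx
    rw [Subgroup.mem_upperCentralSeries_succ_iff] at hx
    rw [Subgroup.mem_bot]
    apply akv_center
    intro h
    have h1 := hx h
    rw [ih, Subgroup.mem_bot] at h1
    exact h1

private theorem akv_nn : ¬ Group.IsNilpotent (alternatingGroup (Fin 4)) := by
  rintro ⟨n, hn⟩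
  rw [akv_ucs] at hn
  have h1 := Subgroup.card_top (G := alternatingGroup (Fin 4))
  rw [← hn, Subgroup.card_bot, alternatingGroup.card_of_card_eq_four (by simp)] at h1
  omega

private theorem akv_q (_h : (alternatingGroup.kleinFour (Fin 4)).Normal) :
    Nat.card (alternatingGroup (Fin 4) ⧸ alternatingGroup.kleinFour (Fin 4)) = 3 := by
  have h4 : Nat.card (Fin 4) = 4 := by simp
  rw [← Nat.mul_left_inj (a := Nat.card (alternatingGroup.kleinFour (Fin 4)))]
  · rw [← Subgroup.card_eq_card_quotient_mul_card_subgroup]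
    rw [alternatingGroup.card_of_card_eq_four h4, alternatingGroup.kleinFour_card_of_card_eq_four h4]
  rw [alternatingGroup.kleinFour_card_of_card_eq_four h4]; simp

theorem akv : ∃ k : KV (alternatingGroup (Fin 4)), ∀ g, k.pi g = 1 → g ∈ k.V := by
  have h4 : Nat.card (Fin 4) = 4 := by simp
  haveI hN : (alternatingGroup.kleinFour (Fin 4)).Normal := alternatingGroup.normal_kleinFour h4
  have hV4 := alternatingGroup.kleinFour_card_of_card_eq_four h4
  have hex := alternatingGroup.exponent_kleinFour_of_card_eq_four h4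
  have h2 : ∀ x ∈ alternatingGroup.kleinFour (Fin 4), x ^ 2 = 1 := by
    intro x hx
    have h3 := Monoid.pow_exponent_eq_one (⟨x, hx⟩ : alternatingGroup.kleinFour (Fin 4))
    rw [hex] at h3
    exact congrArg Subtype.val h3
  have hn : Group.IsNilpotent (alternatingGroup (Fin 4) ⧸ alternatingGroup.kleinFour (Fin 4)) := by
    haveI : Fact (Nat.Prime 3) := ⟨Nat.prime_three⟩
    have h3 : Nat.card (alternatingGroup (Fin 4) ⧸ alternatingGroup.kleinFour (Fin 4)) = 3 ^ 1 := by
      rw [akv_q hN, pow_one]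
    exact (IsPGroup.of_card h3).isNilpotent
  obtain ⟨k, hk⟩ := kv_ex (alternatingGroup.kleinFour (Fin 4)) hV4 h2 hn akv_nn
  refine ⟨k, fun g hg => ?_⟩
  have h5 : Nat.card k.pi.ker = 4 := by
    have h6 := k.pi.ker.card_mul_index
    rw [Subgroup.index_ker, MonoidHom.range_eq_top.2 k.sj, Subgroup.card_top,
      alternatingGroup.card_of_card_eq_four h4] at h6
    have h7 : Nat.card (Multiplicative (ZMod 3)) = 3 := Nat.card_zmod 3
    rw [h7] at h6
    omega
  have h8 : k.V = k.pi.ker := by
    apply Subgroup.eq_of_le_of_card_ge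
    · intro x hx
      exact k.piV x hx
    · rw [h5, hk, hV4]
  rw [h8]
  exact hg

theorem aind (K : IntermediateField ℚ QBar) (ω : K) (hω : IsPrimitiveRoot ω 3) :
    Spec.indG (alternatingGroup (Fin 4)) = 2 ∧
      Spec.betaAll K QBar (alternatingGroup (Fin 4)) = 3 :=
  ⟨H48.T3.indG_A4, H48.T3.beta_A4 hω⟩

private theorem akv_wrep : H36.QA.WRep (Equiv.uniqueProd (Fin 4) (Fin 1)) (⊤ : Subgroup (Equiv.Perm (Fin 1)))
    (alternatingGroup (Fin 4)) := by
  intro g
  constructor
  · intro hg
    refine ⟨1, trivial, fun _ => g, fun _ => Equiv.Perm.mem_alternatingGroup.1 hg, fun i k => ?_⟩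
    rfl
  · rintro ⟨h, -, ε, hε, hg⟩
    have h1 : g = ε 0 := by
      ext1 k
      exact hg 0 k
    rw [h1, Equiv.Perm.mem_alternatingGroup]
    exact hε 0

theorem alow (K : IntermediateField ℚ QBar) [NumberField K] (ω : K) (hω : IsPrimitiveRoot ω 3) :
    ∃ c : ℝ, 0 < c ∧ ∃ B₀ : ℝ, ∀ B : ℝ, B₀ ≤ B →
      ((⌈c * B ^ (1 / (2 : ℝ)) * Real.log B ^ 2⌉₊ : ℕ) : ℕ∞) ≤
        Spec.nK K QBar (alternatingGroup (Fin 4)) B := by
  have hH : MulAction.IsPretransitive (⊤ : Subgroup (Equiv.Perm (Fin 1))) (Fin 1) :=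
    ⟨fun x y => ⟨1, Subsingleton.elim _ _⟩⟩
  haveI : Subsingleton (⊤ : Subgroup (Equiv.Perm (Fin 1))) := inferInstance
  have hft : FT (1 : Gal(QBar/K) →* (⊤ : Subgroup (Equiv.Perm (Fin 1)))) :=
    ⟨⊥, inferInstance, fun _ _ => by simp [MonoidHom.mem_ker]⟩
  haveI : FiniteDimensional ℚ K := NumberField.to_finiteDimensional
  obtain ⟨c, hc, B₀, hB⟩ := H36.QA.a4_bound (m := 1) (n := 4) one_pos (Equiv.uniqueProd (Fin 4) (Fin 1)) ⊤ hH
    (alternatingGroup (Fin 4)) akv_wrep K ω hω 1 (fun h => ⟨1, Subsingleton.elim _ _⟩) hft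
  refine ⟨c, hc, B₀, fun B hBB => ?_⟩
  have h1 := (hB B hBB).trans (H38.ML.nK_le_spec (by norm_num) (alternatingGroup (Fin 4)) K B)
  rw [H48.T3.indG_A4, H48.T3.beta_A4 hω] at h1
  exact_mod_cast h1

end H38.EN
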