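import Pool.Agent.H38.EN.Ndl
import Pool.Agent.H38.EN.Adi
import Pool.Agent.H38.EN.Akv
import Pool.Agent.H38.AS.QNk
import Pool.Agent.H63.MC.CFin

/-!
# [H38 EN FIN] Malle's conjecture for quartic `A_4`-extensions (assembly; helper38). File Pool/Agent/H38/EN/Fin.lean
-/

set_option autoImplicit false

open scoped NumberField Classical
open IsDedekindDomain H38.ML H63.MA H48.KV H48.T3 Filter Topology

noncomputable section

namespace H38.EN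

variable {K : IntermediateField ℚ QBar} [NumberField K] {ω : K}

theorem afin (hω : IsPrimitiveRoot ω 3) (hi : MOne 2 K) (hc : CoreSharp K)
    (h1 : ∀ S : Finset (Pl K), H57.LI.LI1 K QBar (mS S))
    (hl : ∀ S : Finset (Pl K), H57.LI.LI2 K QBar (mS S)) (i₀ : Fin 4) :
    (∀ B : ℝ, {φ : Gal(QBar/K) →* alternatingGroup (Fin 4) | FT φ ∧ Function.Surjective φ ∧
      (H38.ML.relDisc K (fieldOf i₀ φ) : ℝ) ≤ B}.Finite) ∧
    ∃ c : ℝ, Tendsto (fun B : ℝ => (({φ : Gal(QBar/K) →* alternatingGroup (Fin 4) | FT φ ∧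
      Function.Surjective φ ∧ (H38.ML.relDisc K (fieldOf i₀ φ) : ℝ) ≤ B}.ncard : ℕ) : ℝ) /
        (B ^ (1 / (2 : ℝ)) * Real.log B ^ 2)) atTop (𝓝 c) := by
  obtain ⟨k, hk⟩ := akv
  obtain ⟨S, hS⟩ : ∃ S : Finset (Pl K), S = (finite_above (K := K) two_ne_zero).toFinset ∪
    (finite_above (K := K) three_ne_zero).toFinset := ⟨_, rfl⟩
  have hS2 : ∀ v : Pl K, Above 2 v → v ∈ S := fun v hv => by
    rw [hS]
    exact Finset.mem_union_left _ ((finite_above (K := K) two_ne_zero).mem_toFinset.2 hv)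
  have hS3 : ∀ v : Pl K, Above 3 v → v ∈ S := fun v hv => by
    rw [hS]
    exact Finset.mem_union_right _ ((finite_above (K := K) three_ne_zero).mem_toFinset.2 hv)
  obtain ⟨Q⟩ := exists_DP K QBar
  obtain ⟨ds, hds, hrel⟩ := adi k hk S hS2 hS3 Q i₀
  obtain ⟨⟨Df, hDf⟩, hnd⟩ := ndl hω hi hc k hk S hS2 (h1 S) (hl S) Q ds hds
  choose hfin L hL using hnd
  obtain ⟨CS, hCS⟩ : ∃ CS : ℝ → Set (Gal(QBar/K) →* alternatingGroup (Fin 4)), ∀ B, CS B =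
    {φ : Gal(QBar/K) →* alternatingGroup (Fin 4) | FT φ ∧
      Function.Surjective φ ∧ (H38.ML.relDisc K (fieldOf i₀ φ) : ℝ) ≤ B} := ⟨_, fun _ => rfl⟩
  simp only [← hCS]
  have hmem : ∀ B φ, φ ∈ CS B ↔ FT φ ∧ Function.Surjective φ ∧
      (H38.ML.relDisc K (fieldOf i₀ φ) : ℝ) ≤ B := by
    intro B φ
    rw [hCS]
    rfl
  have hkey : ∀ B : ℝ, 0 ≤ B → ∀ d : ℕ, 0 < d → ∀ φ, φ ∈ ND k Q S ds d ((B / d) ^ (1 / (2 : ℝ))) ↔
      φ ∈ CS B ∧ ds φ = d := by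
    intro B hB d hd φ
    have hd' : (0 : ℝ) < d := by exact_mod_cast hd
    have h3 : ∀ t : ℝ, 0 ≤ t → (t ≤ (B / d) ^ (1 / (2 : ℝ)) ↔ (d : ℝ) * t ^ 2 ≤ B) := by
      intro t ht
      rw [← Real.sqrt_eq_rpow, Real.le_sqrt ht (div_nonneg hB hd'.le), le_div_iff₀ hd', mul_comm]
    constructor
    · rintro ⟨h4, h5, h6, h7⟩
      refine ⟨(hmem B φ).2 ⟨h4, h5, ?_⟩, h6⟩
      rw [(hrel φ h4 h5).2, h6]
      refine (h3 _ ?_).1 h7
      exact mul_nonneg (zero_le_one.trans (one_le_nr _)) (zero_le_one.trans (one_le_nr _))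
    · rintro ⟨h4, h6⟩
      obtain ⟨h4, h5, h7⟩ := (hmem B φ).1 h4
      refine ⟨h4, h5, h6, ?_⟩
      rw [(hrel φ h4 h5).2, h6] at h7
      refine (h3 _ ?_).2 h7
      exact mul_nonneg (zero_le_one.trans (one_le_nr _)) (zero_le_one.trans (one_le_nr _))
  obtain ⟨D', hD'⟩ : ∃ D' : Finset ℕ, D' = Df.filter fun d => 0 < d := ⟨_, rfl⟩
  have hD'p : ∀ d ∈ D', 0 < d := fun d hd => by
    rw [hD'] at hd
    exact (Finset.mem_filter.1 hd).2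
  have hDφ : ∀ φ, FT φ → Function.Surjective φ → ds φ ∈ D' := fun φ h4 h5 => by
    rw [hD']
    exact Finset.mem_filter.2 ⟨hDf φ h4 h5, (hrel φ h4 h5).1⟩
  have hfin0 : ∀ B, 0 ≤ B → (CS B).Finite := by
    intro B hB
    have h3 : (⋃ d ∈ D', ND k Q S ds d ((B / d) ^ (1 / (2 : ℝ)))).Finite :=
      Set.Finite.biUnion D'.finite_toSet fun d _ => hfin d _
    refine h3.subset fun φ hφ => ?_
    obtain ⟨h4, h5, h7⟩ := (hmem B φ).1 hφ
    exact Set.mem_biUnion (hDφ φ h4 h5) ((hkey B hB (ds φ) (hrel φ h4 h5).1 φ).2 ⟨hφ, rfl⟩)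
  have hfinB : ∀ B, (CS B).Finite := by
    intro B
    refine (hfin0 (max B 0) (le_max_right _ _)).subset fun φ hφ => ?_
    rw [hmem] at hφ ⊢
    exact ⟨hφ.1, hφ.2.1, hφ.2.2.trans (le_max_left _ _)⟩
  refine ⟨hfinB, ∑ d ∈ D', L d * ((d : ℝ) ^ (-(1 / (2 : ℝ))) * (1 / (2 : ℝ)) ^ 2), ?_⟩
  have hsum : ∀ B : ℝ, 0 ≤ B → ((CS B).ncard : ℝ) =
      ∑ d ∈ D', ((ND k Q S ds d ((B / d) ^ (1 / (2 : ℝ)))).ncard : ℝ) := by
    intro B hB
    rw [Set.ncard_eq_toFinset_card _ (hfinB B), Finset.card_eq_sum_card_fiberwise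
      (f := ds) (t := D') fun φ hφ => by
        obtain ⟨h4, h5, -⟩ := (hmem B φ).1 ((hfinB B).mem_toFinset.1 hφ)
        exact hDφ φ h4 h5]
    push_cast
    refine Finset.sum_congr rfl fun d hd => ?_
    congr 1
    rw [← Set.ncard_coe_finset]
    congr 1
    ext φ
    rw [hkey B hB d (hD'p d hd) φ]
    simp
  have hlim := tendsto_finsetSum D' fun d hd => cfin_lim
    (fun X : ℝ => ((ND k Q S ds d X).ncard : ℝ)) (L d) 2 (hL d) 2 two_pos (d : ℝ)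
    (by exact_mod_cast hD'p d hd)
  refine hlim.congr' ?_
  filter_upwards [eventually_ge_atTop (0 : ℝ)] with B hB
  rw [hsum B hB, Finset.sum_div]

theorem amain (hω : IsPrimitiveRoot ω 3) (hi : MOne 2 K) (hc : CoreSharp K)
    (h1 : ∀ S : Finset (Pl K), H57.LI.LI1 K QBar (mS S))
    (hl : ∀ S : Finset (Pl K), H57.LI.LI2 K QBar (mS S)) :
    ∃ C : ℝ, 0 < C ∧ ∃ k : ℝ → ℕ,
      (∀ B : ℝ, Spec.nK K QBar (alternatingGroup (Fin 4)) B = (k B : ℕ∞)) ∧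
      Tendsto (fun B : ℝ => (k B : ℝ) / (B ^ (1 / (2 : ℝ)) * Real.log B ^ 2)) atTop (𝓝 C) := by
  obtain ⟨c₀, hc₀, hnk⟩ := H38.AS.nk2 (alternatingGroup (Fin 4)) H38.WM.a4_trans
  obtain ⟨hfin, c, hcl⟩ := afin hω hi hc h1 hl (0 : Fin 4)
  obtain ⟨c₁, hc₁, B₀, hlow⟩ := alow K ω hω
  have hkk : ∀ B : ℝ, ∃ k' : ℕ, Spec.nK K QBar (alternatingGroup (Fin 4)) B = (k' : ℕ∞) ∧
      k' * c₀ = ({φ : Gal(QBar/K) →* alternatingGroup (Fin 4) | FT φ ∧ Function.Surjective φ ∧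
        (H38.ML.relDisc K (fieldOf (0 : Fin 4) φ) : ℝ) ≤ B}).ncard :=
    fun B => hnk K inferInstance 0 B (hfin B)
  choose k' hk1 hk2 using hkk
  have hc₀R : (0 : ℝ) < (c₀ : ℝ) := by exact_mod_cast hc₀
  have hlim : Tendsto (fun B : ℝ => (k' B : ℝ) / (B ^ (1 / (2 : ℝ)) * Real.log B ^ 2))
      atTop (𝓝 (c / (c₀ : ℝ))) := by
    refine (hcl.div_const (c₀ : ℝ)).congr fun B => ?_
    rw [← hk2 B]
    push_cast
    field_simp
  refine ⟨c / (c₀ : ℝ), ?_, k', hk1, hlim⟩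
  refine lt_of_lt_of_le hc₁ (ge_of_tendsto hlim ?_)
  filter_upwards [eventually_ge_atTop B₀, eventually_gt_atTop 1] with B hB hB1
  have h3 := hlow B hB
  rw [hk1 B] at h3
  have h4 : (⌈c₁ * B ^ (1 / (2 : ℝ)) * Real.log B ^ 2⌉₊ : ℕ) ≤ k' B := by exact_mod_cast h3
  have h5 : c₁ * B ^ (1 / (2 : ℝ)) * Real.log B ^ 2 ≤ (k' B : ℝ) :=
    (Nat.le_ceil _).trans (by exact_mod_cast h4)
  have hP : 0 < B ^ (1 / (2 : ℝ)) * Real.log B ^ 2 :=
    mul_pos (Real.rpow_pos_of_pos (by linarith) _) (pow_pos (Real.log_pos hB1) 2)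
  rw [le_div_iff₀ hP]
  linarith

end H38.EN
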