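import Pool.Agent.H38.EN.Af3
import Pool.Agent.H48.T3.UbN
import Pool.Agent.H48.T3.Cls

/-!
# [H38 EN FUP] upper bound for one fibre, 30-50 lines. File Pool/Agent/H38/EN/Fup.lean

* `fup`: `cub_ex`, `std_ex` (H48/T3/Cls.lean), `ub_new` (UbN.lean), `selg_fd` (KV/FinB.lean; `c.F = FX χ`), `af3`. `C = 4 * 8 ^ #S * C₀`.
* `mup`: `mq` is a sum over a subset of `AF K Y` of `3 ^ #q` (`Finset.filter_subset`), `af3`.
-/

set_option autoImplicit false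

open scoped NumberField Classical
open IsDedekindDomain H38.ML H63.MA H48.KV H48.T3

noncomputable section

namespace H38.EN

variable {K : IntermediateField ℚ QBar} [NumberField K] {G : Type} [Group G]

theorem fup (hi : MOne 2 K) (k : KV G) (hk : ∀ g, k.pi g = 1 → g ∈ k.V) (S : Finset (Pl K))
    (h2 : ∀ v : Pl K, Above 2 v → v ∈ S) (Q : DP K QBar) (ds : (Gal(QBar/K) →* G) → ℕ) :
    ∃ C : ℝ, 1 ≤ C ∧ ∀ (d : ℕ), ∀ χ ∈ H38.MT.Ch K, ∀ Y : ℝ, 1 ≤ Y →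
      ((Fib k Q S ds χ d Y).ncard : ℝ) ≤ C * selg (FX χ) * Y * (1 + Real.log Y) ^ 2 := by
  obtain ⟨C₀, hC₀, ha⟩ := af3 K
  refine ⟨4 * 8 ^ S.card * C₀, ?_, fun d χ hχ Y hY => ?_⟩
  · have h8 : (1 : ℝ) ≤ 8 ^ S.card := one_le_pow₀ (by norm_num)
    nlinarith
  · obtain ⟨c, hc⟩ := cub_ex χ hχ
    obtain ⟨s, γ, H⟩ := std_ex hk χ hχ c hc
    have h1 := (ub_new hi H S h2 Q ds d Y).2
    have h3 : selg (FX χ) = selc K c.F := by
      rw [← hc]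
      exact selg_fd c.F
    rw [h3]
    refine h1.trans ?_
    calc 4 * (8 ^ S.card * (selc K c.F : ℝ)) * ∑ q ∈ AF K Y, (3 : ℝ) ^ q.card
        ≤ 4 * (8 ^ S.card * (selc K c.F : ℝ)) * (C₀ * Y * (1 + Real.log Y) ^ 2) :=
          mul_le_mul_of_nonneg_left (ha Y hY) (by positivity)
      _ = _ := by ring

theorem mup (Q : DP K QBar) (S : Finset (Pl K)) : ∃ C : ℝ, 1 ≤ C ∧
    ∀ (χ : Gal(QBar/K) →* Multiplicative (ZMod 3)) (Y : ℝ), 1 ≤ Y →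
      0 ≤ H38.MT.mq Q S χ Y ∧ H38.MT.mq Q S χ Y ≤ C * Y * (1 + Real.log Y) ^ 2 := by
  obtain ⟨C₀, hC₀, ha⟩ := af3 K
  refine ⟨C₀, hC₀, fun χ Y hY => ⟨?_, ?_⟩⟩
  · unfold H38.MT.mq
    exact Finset.sum_nonneg fun q _ => by positivity
  · refine le_trans ?_ (ha Y hY)
    unfold H38.MT.mq H38.MT.SQ
    exact Finset.sum_le_sum_of_subset_of_nonneg (Finset.filter_subset _ _) fun q _ _ => by positivity

end H38.EN
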