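import Pool.Agent.H38.EN.Defs
import Pool.Agent.H38.MT.FN
import Pool.Agent.H48.T3.TyC

/-!
# [H38 EN MAI] the main term, 60-90 lines. File Pool/Agent/H38/EN/Mai.lean

`Xf` from `ty_fin` (H48/T3/TyC.lean): choose for every `χ ∈ Ch K` an element `t χ ∈ Xf` with `Teq S Q χ (t χ)`; by removing elements we may assume that different elements of `Xf` are not `Teq` (`Teq` is an equivalence relation, see the definition in H63/MC/CTyp.lean): for instance replace `Xf` by the image of `Xf` under `r`, `r χ` = a chosen element of `Xf` which is `Teq` to `χ`, depending only on the class of `χ`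
(`Quotient.out` style, or strong induction on the finset). Then `{χ ∈ Ch K, cf ≤ X}` is the disjoint union of the sets `CX Q S χ₁ X`, `χ₁ ∈ Xf`, and `W χ = W χ₁` on `CX Q S χ₁ X`; so the sum is `∑_{χ₁ ∈ Xf} W χ₁ ∑ᶠ_{χ ∈ CX Q S χ₁ X} mq ..`, and `mt_lim` (H38/MT/FN.lean) for every `χ₁` (`tendsto_finset_sum`).
-/

set_option autoImplicit false

open scoped NumberField Classical
open IsDedekindDomain H38.ML H63.MA H48.KV H48.T3 Filter Topology

noncomputable section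

namespace H38.EN

variable {K : IntermediateField ℚ QBar} [NumberField K] {ω : K}

theorem mai (hω : IsPrimitiveRoot ω 3) (Q : DP K QBar) (S : Finset (Pl K))
    (hP : ∀ X : ℝ, {χ | χ ∈ H38.MT.Ch K ∧ H38.MT.cf Q S χ ≤ X}.Finite)
    (W : (Gal(QBar/K) →* Multiplicative (ZMod 3)) → ℝ)
    (hW : ∀ χ ∈ H38.MT.Ch K, ∀ χ' ∈ H38.MT.Ch K, Teq S Q χ χ' → W χ = W χ') :
    ∃ L : ℝ, Tendsto (fun X : ℝ => (∑ χ ∈ (hP X).toFinset,
      W χ * H38.MT.mq Q S χ (X / H38.MT.cf Q S χ)) / (X * Real.log X ^ 2)) atTop (𝓝 L) := by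
  obtain ⟨Xf, hXf, hX2⟩ := H48.T3.ty_fin hω Q S
  let st : Setoid (Gal(QBar/K) →* Multiplicative (ZMod 3)) :=
    { r := Teq S Q
      iseqv := ⟨fun _ _ _ _ _ => rfl, fun h v hv σ hσ => (h v hv σ hσ).symm,
        fun h1 h2 v hv σ hσ => (h1 v hv σ hσ).trans (h2 v hv σ hσ)⟩ }
  have hst : ∀ χ χ' : Gal(QBar/K) →* Multiplicative (ZMod 3),
      Quotient.mk st χ = Quotient.mk st χ' ↔ Teq S Q χ χ' := fun χ χ' => Quotient.eq
  have key : ∀ c ∈ Xf.image (Quotient.mk st), ∃ L : ℝ, Tendsto (fun X : ℝ =>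
      (∑ χ ∈ (hP X).toFinset with Quotient.mk st χ = c,
        W χ * H38.MT.mq Q S χ (X / H38.MT.cf Q S χ)) / (X * Real.log X ^ 2)) atTop (𝓝 L) := by
    intro c hc
    obtain ⟨χ₁, h1, rfl⟩ := Finset.mem_image.1 hc
    obtain ⟨hfin, L, hL⟩ := H38.MT.mt_lim hω Q S χ₁
    refine ⟨W χ₁ * L, (hL.const_mul (W χ₁)).congr fun X => ?_⟩
    rw [finsum_mem_eq_finite_toFinset_sum _ (hfin X), ← mul_div_assoc, Finset.mul_sum]
    congr 1
    have hset : (hfin X).toFinset =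
        (hP X).toFinset.filter (fun χ => Quotient.mk st χ = Quotient.mk st χ₁) := by
      ext χ
      rw [Set.Finite.mem_toFinset, Finset.mem_filter, Set.Finite.mem_toFinset, hst]
      exact ⟨fun h => ⟨⟨h.1, h.2.2⟩, h.2.1⟩, fun h => ⟨h.1.1, h.2, h.1.2⟩⟩
    rw [hset]
    refine Finset.sum_congr rfl fun χ hχ => ?_
    rw [Finset.mem_filter, Set.Finite.mem_toFinset, hst] at hχ
    rw [hW χ hχ.1.1 χ₁ (hXf χ₁ h1) hχ.2]
  choose! L hL using key
  refine ⟨∑ c ∈ Xf.image (Quotient.mk st), L c, (tendsto_finsetSum _ hL).congr fun X => ?_⟩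
  rw [← Finset.sum_div]
  congr 1
  refine Finset.sum_fiberwise_of_maps_to (fun χ hχ => ?_) _
  rw [Set.Finite.mem_toFinset] at hχ
  obtain ⟨χ', h1, h2⟩ := hX2 χ hχ.1
  rw [Finset.mem_image]
  exact ⟨χ', h1, ((hst _ _).2 h2).symm⟩

end H38.EN
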