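import Pool.Agent.H38.EN.Defs
import Pool.Agent.H38.MT.BA

/-!
# [H38 EN MUL] at most 3 characters with the same field, 40-60 lines. File Pool/Agent/H38/EN/Mul.lean

`FX χ = fixedField χ.ker`, and `(FX χ).fixingSubgroup = χ.ker` (`H38.ML.fixing_fixedField`, H38/ML/Factor.lean, `FT χ`), so all `χ ∈ T` have the same kernel `H`. If `T` is not empty choose `σ₀ ∉ H` (`χ` is surjective). `χ ↦ χ σ₀` is injective on `T`: let `χ σ₀ = χ' σ₀`; for every `σ` there is `j` with `χ σ = (χ σ₀)^j` (the group has order 3 and `χ σ₀ ≠ 1`),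
so `σ σ₀^(-j) ∈ H`, `χ' σ = (χ' σ₀)^j = χ σ`. So `#T ≤ #(Multiplicative (ZMod 3)) = 3` (`Finset.card_le_card_of_injOn` to `univ`).
-/

set_option autoImplicit false

open scoped NumberField Classical
open IsDedekindDomain H38.ML H63.MA H48.KV

noncomputable section

namespace H38.EN

variable {K : IntermediateField ℚ QBar} [NumberField K]

theorem mul3 (F : IntermediateField K QBar)
    (T : Finset (Gal(QBar/K) →* Multiplicative (ZMod 3)))
    (hT : ∀ χ ∈ T, χ ∈ H38.MT.Ch K ∧ F = FX χ) : T.card ≤ 3 := by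
  classical
  rcases T.eq_empty_or_nonempty with rfl | ⟨χ₁, hχ₁⟩
  · simp
  have hker : ∀ χ ∈ T, χ.ker = F.fixingSubgroup := by
    intro χ hχ
    obtain ⟨⟨hft, -⟩, hF⟩ := hT χ hχ
    obtain ⟨E, hE, hle⟩ := hft
    rw [hF]
    exact (fixing_fixedField χ.ker E hle).1.symm
  obtain ⟨σ₀, hσ₀⟩ := (hT χ₁ hχ₁).1.2 (Multiplicative.ofAdd (1 : ZMod 3))
  have hne : χ₁ σ₀ ≠ 1 := by
    rw [hσ₀]
    decide
  have hσF : σ₀ ∉ F.fixingSubgroup := by
    rw [← hker χ₁ hχ₁, MonoidHom.mem_ker]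
    exact hne
  have hz : ∀ a b : Multiplicative (ZMod 3), a ≠ 1 → ∃ j : Fin 3, b = a ^ (j : ℕ) := by decide
  have hinj : Set.InjOn (fun χ : Gal(QBar/K) →* Multiplicative (ZMod 3) => χ σ₀) T := by
    intro χ hχ χ' hχ' h
    have h0 : χ σ₀ = χ' σ₀ := h
    ext σ : 1
    have hne1 : χ σ₀ ≠ 1 := by
      intro h1
      apply hσF
      rw [← hker χ hχ, MonoidHom.mem_ker, h1]
    obtain ⟨j, hj⟩ := hz (χ σ₀) (χ σ) hne1
    have h2 : σ * (σ₀ ^ (j : ℕ))⁻¹ ∈ χ.ker := by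
      rw [MonoidHom.mem_ker, map_mul, map_inv, map_pow, hj, mul_inv_cancel]
    rw [hker χ hχ, ← hker χ' hχ', MonoidHom.mem_ker, map_mul, map_inv, map_pow] at h2
    rw [hj, h0]
    exact (mul_inv_eq_one.1 h2).symm
  have h3 : T.card ≤ (Finset.univ : Finset (Multiplicative (ZMod 3))).card :=
    Finset.card_le_card_of_injOn _ (fun _ _ => Finset.mem_univ _) hinj
  have h4 : (Finset.univ : Finset (Multiplicative (ZMod 3))).card = 3 := rfl
  rw [h4] at h3
  exact h3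

end H38.EN
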