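import Pool.Agent.H38.EN.Defs
import Pool.Agent.H38.MT.FN
import Pool.Agent.H48.KV.UbE

/-!
# [H38 EN NDS] the count as a sum over the characters, 60-90 lines. File Pool/Agent/H38/EN/Nds.lean

* `tf_mem`: `TV` is finite for `φ` of finite type (`ub_fin`, KV/UbE.lean).
* `nds`: `ND k Q S ds d X` is the disjoint union over the `χ ∈ Ch K` with `cf Q S χ ≤ X` (finite set by `mt_cnt`, H38/MT/FN.lean; `cf ≥ 1`) of the sets `Fib k Q S ds χ d (X / cf Q S χ)` (`φ ↦ χ = k.pi ∘ φ`, surjective of finite type: `k.sj`, `H38.ML.ft_comp`): for `φ` with `k.pi ∘ φ = χ`: `cf χ * nr (tf φ) ≤ X` iff `nr (tf φ) ≤ X / cf χ` iff all finite `q ⊆ TV` have `nr q ≤ X / cf χ`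
  (`nr_mono`); in particular `cf χ ≤ X` because `nr ≥ 1` (`one_le_nr`). `Set.Finite.biUnion`; for the number: `Set.ncard` of a disjoint finite union: `Set.ncard_eq_toFinset_card`, `Finset.card_eq_sum_card_fiberwise`, see the end of `fin_lim` in KV/FinC.lean.
-/

set_option autoImplicit false

open scoped NumberField Classical
open IsDedekindDomain H38.ML H63.MA H48.KV H48.T3

noncomputable section

namespace H38.EN

variable {K : IntermediateField ℚ QBar} [NumberField K] {G : Type} [Group G]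

theorem tf_mem (k : KV G) (Q : DP K QBar) (S : Finset (Pl K)) (φ : Gal(QBar/K) →* G)
    (hφ : FT φ) (l : Pl K) : l ∈ tf k Q S φ ↔ l ∈ TV k Q S φ := by
  have h : (TV k Q S φ).Finite := by
    refine (H38.WM.rmF Q φ hφ).subset ?_
    rintro l ⟨-, h1, -⟩
    exact h1
  unfold tf
  rw [dif_pos h, Set.Finite.mem_toFinset]

theorem nds (k : KV G) (Q : DP K QBar) (S : Finset (Pl K)) (ds : (Gal(QBar/K) →* G) → ℕ) (d : ℕ)
    (hfin : ∀ χ ∈ H38.MT.Ch K, ∀ Y : ℝ, 1 ≤ Y → (Fib k Q S ds χ d Y).Finite)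
    (hP : ∀ X : ℝ, {χ | χ ∈ H38.MT.Ch K ∧ H38.MT.cf Q S χ ≤ X}.Finite) (X : ℝ) :
    (ND k Q S ds d X).Finite ∧ (ND k Q S ds d X).ncard =
      ∑ χ ∈ (hP X).toFinset, (Fib k Q S ds χ d (X / H38.MT.cf Q S χ)).ncard := by
  have hcf : ∀ χ, 1 ≤ H38.MT.cf Q S χ := fun χ => one_le_nr _
  have hnr : ∀ (φ : Gal(QBar/K) →* G), FT φ → ∀ Y : ℝ,
      (nr (tf k Q S φ) ≤ Y ↔ ∀ q : Finset (Pl K), (∀ l ∈ q, l ∈ TV k Q S φ) → nr q ≤ Y) := by
    intro φ hφ Y
    constructor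
    · intro h q hq
      refine (nr_mono fun l hl => ?_).trans h
      rw [tf_mem k Q S φ hφ]
      exact hq l hl
    · intro h
      exact h _ fun l hl => (tf_mem k Q S φ hφ l).1 hl
  have hFin : ∀ χ ∈ (hP X).toFinset, (Fib k Q S ds χ d (X / H38.MT.cf Q S χ)).Finite := by
    intro χ hχ
    rw [Set.Finite.mem_toFinset] at hχ
    refine hfin χ hχ.1 _ ?_
    rw [one_le_div (by linarith [hcf χ])]
    exact hχ.2
  have hU : ND k Q S ds d X = ⋃ χ ∈ (hP X).toFinset, Fib k Q S ds χ d (X / H38.MT.cf Q S χ) := by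
    ext φ
    simp only [Set.mem_iUnion, exists_prop, Set.Finite.mem_toFinset]
    constructor
    · rintro ⟨h1, h2, h3, h4⟩
      refine ⟨k.pi.comp φ, ⟨⟨ft_comp k.pi φ h1, k.sj.comp h2⟩, ?_⟩, h1, h2, rfl, h3, ?_⟩
      · refine le_trans ?_ h4
        have h5 := one_le_nr (tf k Q S φ)
        have h6 := hcf (k.pi.comp φ)
        nlinarith
      · rw [← hnr φ h1, le_div_iff₀ (by linarith [hcf (k.pi.comp φ)]), mul_comm]
        exact h4
    · rintro ⟨χ, ⟨hχ, hχX⟩, h1, h2, rfl, h3, h4⟩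
      refine ⟨h1, h2, h3, ?_⟩
      rw [← hnr φ h1, le_div_iff₀ (by linarith [hcf (k.pi.comp φ)]), mul_comm] at h4
      exact h4
  have hdisj : ∀ χ ∈ (hP X).toFinset, ∀ χ' ∈ (hP X).toFinset, χ ≠ χ' →
      Disjoint (Fib k Q S ds χ d (X / H38.MT.cf Q S χ)) (Fib k Q S ds χ' d (X / H38.MT.cf Q S χ')) := by
    intro χ _ χ' _ hne
    rw [Set.disjoint_left]
    rintro φ ⟨_, _, h1, _⟩ ⟨_, _, h2, _⟩
    exact hne (h1.symm.trans h2)
  have hND : (ND k Q S ds d X).Finite := by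
    rw [hU]
    exact Set.Finite.biUnion (Finset.finite_toSet _) hFin
  refine ⟨hND, ?_⟩
  rw [hU]
  have h1 := Set.Finite.ncard_biUnion (t := ((hP X).toFinset : Set (Gal(QBar/K) →* Multiplicative (ZMod 3))))
    (s := fun χ => Fib k Q S ds χ d (X / H38.MT.cf Q S χ)) (Finset.finite_toSet _)
    (fun χ hχ => hFin χ hχ) (fun χ hχ χ' hχ' hne => hdisj χ hχ χ' hχ' hne)
  rw [finsum_mem_coe_finset] at h1
  exact h1

end H38.EN
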