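import Pool.Agent.H38.EN.Lim
import Pool.Agent.H38.EN.Sms
import Pool.Agent.H38.EN.Ddx
import Pool.Agent.H38.EN.Mul
import Pool.Agent.H38.EN.Fup
import Pool.Agent.H38.EN.Nds
import Pool.Agent.H38.EN.Mai
import Pool.Agent.H48.T3.FBf

/-!
# [H38 EN NDL] the count for one value of `ds` (assembly; helper38). File Pool/Agent/H38/EN/Ndl.lean
-/

set_option autoImplicit false

open scoped NumberField Classical
open IsDedekindDomain H38.ML H63.MA H48.KV H48.T3 Filter Topology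

noncomputable section

namespace H38.EN

variable {K : IntermediateField ℚ QBar} [NumberField K] {G : Type} [Group G] {ω : K}

private theorem ndl_P (hω : IsPrimitiveRoot ω 3) (Q : DP K QBar) (S : Finset (Pl K)) (X : ℝ) :
    {χ | χ ∈ H38.MT.Ch K ∧ H38.MT.cf Q S χ ≤ X}.Finite := by
  obtain ⟨C, -, hC⟩ := H38.MT.mt_cnt hω Q S
  refine ((hC (max X 1) (le_max_right _ _)).1).subset ?_
  rintro χ ⟨h1, h2⟩
  exact ⟨h1, h2.trans (le_max_left _ _)⟩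

theorem ndl (hω : IsPrimitiveRoot ω 3) (hi : MOne 2 K) (hc : CoreSharp K) (k : KV G)
    (hk : ∀ g, k.pi g = 1 → g ∈ k.V) (S : Finset (Pl K)) (h2 : ∀ v : Pl K, Above 2 v → v ∈ S)
    (h1 : H57.LI.LI1 K QBar (mS S)) (hl : H57.LI.LI2 K QBar (mS S))
    (Q : DP K QBar) (ds : (Gal(QBar/K) →* G) → ℕ) (hds : LocInv Q S ds) :
    (∃ Df : Finset ℕ, ∀ φ : Gal(QBar/K) →* G, FT φ → Function.Surjective φ → ds φ ∈ Df) ∧
    ∀ d : ℕ, (∀ X : ℝ, (ND k Q S ds d X).Finite) ∧ ∃ L : ℝ, Tendsto (fun X : ℝ =>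
      ((ND k Q S ds d X).ncard : ℝ) / (X * Real.log X ^ 2)) atTop (𝓝 L) := by
  obtain ⟨hDf, C₀, hC₀, hfb⟩ := fb hω hi k hk S h2 Q ds hds
  refine ⟨hDf, fun d => ?_⟩
  obtain ⟨W, hW0, hWi, hWm⟩ := hfb d
  have hZ : ∀ χ : Gal(QBar/K) →* Multiplicative (ZMod 3), ∃ Z : Finset (H57.LI.AP K QBar (mS S)),
      χ ∈ H38.MT.Ch K → (∀ x ∈ Z, x.F = FX χ) ∧ (Z.card : ℝ) ≤ C₀ * selg (FX χ) ∧
        ∀ Y : ℝ, 1 ≤ Y → (Fib k Q S ds χ d Y).Finite ∧
          |((Fib k Q S ds χ d Y).ncard : ℝ) - W χ * H38.MT.mq Q S χ Y| ≤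
            C₀ + C₀ * ∑ x ∈ Z, |∑ q ∈ IN K Y, x.lq q| := by
    intro χ
    by_cases hχ : χ ∈ H38.MT.Ch K
    · obtain ⟨Z, hZ⟩ := hWm χ hχ
      exact ⟨Z, fun _ => hZ⟩
    · exact ⟨∅, fun h => absurd h hχ⟩
  choose Z hZ using hZ
  have hP := ndl_P hω Q S
  have hcf1 : ∀ χ, 1 ≤ H38.MT.cf Q S χ := fun χ => one_le_nr _
  obtain ⟨C₁, δ, hC₁, hδ0, hδ1, hsm⟩ := sms hω hi hc Q S
  obtain ⟨C₂, A, hC₂, hdd⟩ := ddx hω Q S
  obtain ⟨C₃, hC₃, hlq⟩ := lqt K QBar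
  obtain ⟨C₄, hC₄, hfu⟩ := fup hi k hk S h2 Q ds
  obtain ⟨C₅, hC₅, hmu⟩ := mup Q S
  obtain ⟨C₆, A', δ', hC₆, hδ'0, hδ'1, hli⟩ := h1
  obtain ⟨C, hC⟩ : ∃ C : ℝ, C = C₀ + C₁ + C₂ + C₃ + (C₄ + C₀ * C₅) := ⟨_, rfl⟩
  have h05 : 0 < C₀ * C₅ := mul_pos hC₀ (by linarith)
  have hCC₀ : C₀ ≤ C := by rw [hC]; linarith
  have hCC₁ : C₁ ≤ C := by rw [hC]; linarith
  have hCC₂ : C₂ ≤ C := by rw [hC]; linarith
  have hCC₃ : C₃ ≤ C := by rw [hC]; linarith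
  have hCC₄ : C₄ + C₀ * C₅ ≤ C := by rw [hC]; linarith
  have hlogn : ∀ Y : ℝ, 1 ≤ Y → 0 ≤ Real.log Y := fun Y hY => Real.log_nonneg hY
  obtain ⟨e, heP, hec, heE⟩ : ∃ e : ED (Gal(QBar/K) →* Multiplicative (ZMod 3))
      (H57.LI.AP K QBar (mS S)), e.P = H38.MT.Ch K ∧ e.c = H38.MT.cf Q S ∧ e.E = fun χ Y =>
        |((Fib k Q S ds χ d Y).ncard : ℝ) - W χ * H38.MT.mq Q S χ Y| := by
    refine ⟨{
      P := H38.MT.Ch K
      c := H38.MT.cf Q S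
      s := fun χ => (selg (FX χ) : ℝ)
      Z := Z
      D := fun x => x.D
      F := fun x Y => |∑ q ∈ IN K Y, x.lq q|
      E := fun χ Y => |((Fib k Q S ds χ d Y).ncard : ℝ) - W χ * H38.MT.mq Q S χ Y|
      C := C
      δ := δ
      A := A
      C1 := by linarith
      δ0 := hδ0
      δ1 := hδ1
      c1 := fun χ _ => hcf1 χ
      s1 := fun χ hχ => by exact_mod_cast selg_pos hω hi χ hχ
      fin := hP
      sm := ?_
      Zc := ?_
      Zm := ?_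
      Dc := ?_
      F0 := fun x Y => abs_nonneg _
      FT := ?_
      F1 := ?_
      F2 := ?_
      E0 := fun χ Y => abs_nonneg _
      E1 := ?_
      E2 := ?_ }, rfl, rfl, rfl⟩
    · intro R hR T hT
      refine (hsm R hR T hT).trans ?_
      have h3 : 0 ≤ (1 + Real.log R) ^ (2 - δ) :=
        Real.rpow_nonneg (by linarith [hlogn R hR]) _
      exact mul_le_mul_of_nonneg_right (mul_le_mul_of_nonneg_right hCC₁ (by linarith)) h3
    · intro χ hχ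
      exact (hZ χ hχ).2.1.trans (mul_le_mul_of_nonneg_right hCC₀ (Nat.cast_nonneg _))
    · intro x T hT
      exact mul3 x.F T fun χ hχ => ⟨(hT χ hχ).1, (hZ χ (hT χ hχ).1).1 x (hT χ hχ).2⟩
    · intro χ hχ x hx
      have h3 := hdd χ hχ x.F x.nf ((hZ χ hχ).1 x hx)
      exact h3.trans (mul_le_mul_of_nonneg_right hCC₂ (pow_nonneg (by linarith [hcf1 χ]) _))
    · intro x Y hY
      refine (hlq (mS S) x Y hY).trans ?_
      exact mul_le_mul_of_nonneg_right (mul_le_mul_of_nonneg_right hCC₃ (by linarith)) (sq_nonneg _)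
    · intro x
      refine ⟨C₆ * x.D ^ A', fun Y hY => (hli x Y hY).trans ?_⟩
      have hD : 0 ≤ x.D := abs_nonneg _
      refine mul_le_mul_of_nonneg_left ?_ (mul_nonneg (by linarith) (pow_nonneg hD _))
      calc Y ^ (1 - δ') ≤ Y ^ (1 : ℝ) := Real.rpow_le_rpow_of_exponent_le hY (by linarith)
        _ = Y := Real.rpow_one Y
    · intro A₁ B ε hε
      exact hl A₁ B ε hε
    · intro χ hχ Y hY
      refine (((hZ χ hχ).2.2 Y hY).2).trans ?_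
      have h3 : 0 ≤ ∑ x ∈ Z χ, |∑ q ∈ IN K Y, x.lq q| := Finset.sum_nonneg fun _ _ => abs_nonneg _
      exact add_le_add hCC₀ (mul_le_mul_of_nonneg_right hCC₀ h3)
    · intro χ hχ Y hY
      have h3 := hfu d χ hχ Y hY
      obtain ⟨h4, h5⟩ := hmu χ Y hY
      obtain ⟨h6, h7⟩ := hW0 χ
      have h8 : (1 : ℝ) ≤ selg (FX χ) := by exact_mod_cast selg_pos hω hi χ hχ
      have hP0 : 0 ≤ Y * (1 + Real.log Y) ^ 2 := mul_nonneg (by linarith) (sq_nonneg _)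
      have h9 : |((Fib k Q S ds χ d Y).ncard : ℝ) - W χ * H38.MT.mq Q S χ Y| ≤
          ((Fib k Q S ds χ d Y).ncard : ℝ) + W χ * H38.MT.mq Q S χ Y := by
        rw [abs_le]
        have h10 : 0 ≤ W χ * H38.MT.mq Q S χ Y := mul_nonneg h6 h4
        have h11 : (0 : ℝ) ≤ ((Fib k Q S ds χ d Y).ncard : ℝ) := Nat.cast_nonneg _
        constructor <;> linarith
      have h12 : W χ * H38.MT.mq Q S χ Y ≤ C₀ * (C₅ * Y * (1 + Real.log Y) ^ 2) :=
        mul_le_mul h7 h5 h4 hC₀.le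
      calc |((Fib k Q S ds χ d Y).ncard : ℝ) - W χ * H38.MT.mq Q S χ Y|
          ≤ C₄ * selg (FX χ) * Y * (1 + Real.log Y) ^ 2 + C₀ * (C₅ * Y * (1 + Real.log Y) ^ 2) := by
            linarith
        _ = (C₄ * selg (FX χ)) * (Y * (1 + Real.log Y) ^ 2) +
            (C₀ * C₅ * 1) * (Y * (1 + Real.log Y) ^ 2) := by ring
        _ ≤ (C₄ * selg (FX χ)) * (Y * (1 + Real.log Y) ^ 2) +
            (C₀ * C₅ * selg (FX χ)) * (Y * (1 + Real.log Y) ^ 2) := by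
            gcongr
        _ = (C₄ + C₀ * C₅) * (selg (FX χ) * (Y * (1 + Real.log Y) ^ 2)) := by ring
        _ ≤ C * (selg (FX χ) * (Y * (1 + Real.log Y) ^ 2)) :=
            mul_le_mul_of_nonneg_right hCC₄ (mul_nonneg (Nat.cast_nonneg _) hP0)
        _ = C * selg (FX χ) * Y * (1 + Real.log Y) ^ 2 := by ring
  have herr := err e
  have hfinF : ∀ χ ∈ H38.MT.Ch K, ∀ Y : ℝ, 1 ≤ Y → (Fib k Q S ds χ d Y).Finite :=
    fun χ hχ Y hY => ((hZ χ hχ).2.2 Y hY).1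
  have hnd := nds k Q S ds d hfinF hP
  refine ⟨fun X => (hnd X).1, ?_⟩
  obtain ⟨L, hL⟩ := mai hω Q S hP W hWi
  refine ⟨L, ?_⟩
  have hsum : ∀ X : ℝ, ∑ i ∈ (e.fin X).toFinset, e.E i (X / e.c i) =
      ∑ χ ∈ (hP X).toFinset, |((Fib k Q S ds χ d (X / H38.MT.cf Q S χ)).ncard : ℝ) -
        W χ * H38.MT.mq Q S χ (X / H38.MT.cf Q S χ)| := by
    intro X
    have h3 : (e.fin X).toFinset = (hP X).toFinset := by
      ext χ
      rw [Set.Finite.mem_toFinset, Set.Finite.mem_toFinset, heP, hec]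
    rw [h3, hec, heE]
  have h0 : Tendsto (fun X : ℝ => (((ND k Q S ds d X).ncard : ℝ) - ∑ χ ∈ (hP X).toFinset,
      W χ * H38.MT.mq Q S χ (X / H38.MT.cf Q S χ)) / (X * Real.log X ^ 2)) atTop (𝓝 0) := by
    refine squeeze_zero_norm' ?_ herr
    filter_upwards [eventually_gt_atTop (1 : ℝ)] with X hX
    have hP0 : 0 < X * Real.log X ^ 2 := mul_pos (by linarith) (pow_pos (Real.log_pos hX) 2)
    rw [Real.norm_eq_abs, abs_div, abs_of_pos hP0]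
    refine (div_le_div_iff_of_pos_right hP0).2 ?_
    rw [hsum X, (hnd X).2, Nat.cast_sum, ← Finset.sum_sub_distrib]
    exact Finset.abs_sum_le_sum_abs _ _
  have h3 := h0.add hL
  rw [zero_add] at h3
  refine h3.congr fun X => ?_
  rw [← add_div]
  congr 1
  ring

end H38.EN
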