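import Pool.Agent.H38.EN.Defs
import Pool.Agent.H57.LI.PrK

/-!
# [H38 EN AF3] the sum of `3 ^ #q`, 90-130 lines. File Pool/Agent/H38/EN/Af3.lean

* `af3`: `af_tup_one K (Fin 3)` (H63/MA/ADivJ.lean, sharp exponent). `∑_{n ∈ AF K y} 3 ^ #n` = the number of pairs `(n, f)`, `f : n → Fin 3` (`Fintype.card_fun`), and `(n, f) ↦ (g a)_{a : Fin 3}`, `g a = {l ∈ n : f l = a}`, is injective (`n = ⋃ g a`) with `∏ nr (g a) = nr n ≤ y`, `g a ∈ AF K y` (`nr_mono`). (`Finset.card_sigma`, `Finset.card_le_card_of_injOn`.)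
* `lqt`: `sum_lq` and `lam_le` (H57/LI/PrK.lean): `∑_{q ∈ IN K Y} x.lq q = (prK K).SS x.lam Y`, the sum over the finite sets `s` of primes with `(prK K).nn s ≤ Y` of `∏_{l ∈ s} x.lam l`, every factor is at most 3 in absolute value; the index set is `AF K Y` (`mem_SF`, `mem_AF`, `prK_nn`/`idl_norm`: `nn s = nr s`). `af3`.
-/

set_option autoImplicit false

open scoped NumberField Classical
open IsDedekindDomain H38.ML H63.MA

noncomputable section

namespace H38.EN

private def cut {K : Type} [Field K] [NumberField K] (z : (n : Finset (Pl K)) × (n → Fin 3)) (a : Fin 3) : Finset (Pl K) :=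
  z.1.filter fun v => (if h : v ∈ z.1 then z.2 ⟨v, h⟩ else 0) = a

private theorem cut_inj {K : Type} [Field K] [NumberField K] :
    Function.Injective (cut : (n : Finset (Pl K)) × (n → Fin 3) → Fin 3 → Finset (Pl K)) := by
  rintro ⟨n, f⟩ ⟨n', f'⟩ h
  have hm : ∀ (v : Pl K) (a : Fin 3), v ∈ cut ⟨n, f⟩ a ↔ v ∈ cut ⟨n', f'⟩ a := by
    intro v a
    rw [h]
  have hn : n = n' := by
    ext v
    constructor
    · intro hv
      have h1 : v ∈ cut ⟨n, f⟩ (f ⟨v, hv⟩) := by
        simp only [cut, Finset.mem_filter]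
        exact ⟨hv, by rw [dif_pos hv]⟩
      have h2 := (hm v _).1 h1
      simp only [cut, Finset.mem_filter] at h2
      exact h2.1
    · intro hv
      have h1 : v ∈ cut ⟨n', f'⟩ (f' ⟨v, hv⟩) := by
        simp only [cut, Finset.mem_filter]
        exact ⟨hv, by rw [dif_pos hv]⟩
      have h2 := (hm v _).2 h1
      simp only [cut, Finset.mem_filter] at h2
      exact h2.1
  subst hn
  congr 1
  funext v
  have h1 : v.1 ∈ cut ⟨n, f⟩ (f v) := by
    simp only [cut, Finset.mem_filter]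
    exact ⟨v.2, by rw [dif_pos v.2]⟩
  have h2 := (hm v.1 _).1 h1
  simp only [cut, Finset.mem_filter] at h2
  have h3 := h2.2
  rw [dif_pos v.2] at h3
  exact h3.symm

private theorem cut_prod {K : Type} [Field K] [NumberField K] (z : (n : Finset (Pl K)) × (n → Fin 3)) :
    ∏ a, nr (cut z a) = nr z.1 := by
  unfold nr cut
  exact Finset.prod_fiberwise z.1 (fun v => (if h : v ∈ z.1 then z.2 ⟨v, h⟩ else 0)) (fun v => (nm v : ℝ))

theorem af3 (K : Type) [Field K] [NumberField K] : ∃ C : ℝ, 1 ≤ C ∧ ∀ y : ℝ, 1 ≤ y →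
    ∑ n ∈ AF K y, (3 : ℝ) ^ n.card ≤ C * y * (1 + Real.log y) ^ 2 := by
  obtain ⟨C, hC, h⟩ := af_tup_one K (Fin 3)
  refine ⟨max C 1, le_max_right _ _, fun y hy => ?_⟩
  have h1 : (((Fintype.piFinset fun _ : Fin 3 => AF K y).filter (fun g => ∏ a, nr (g a) ≤ y)).card : ℝ) ≤
      C * y * (1 + Real.log y) ^ (Fintype.card (Fin 3) - 1) := by
    refine le_trans (le_of_eq ?_) (h y hy)
    rw [Nat.cast_inj]
    refine congrArg Finset.card ?_
    ext g
    rw [Finset.mem_filter, Finset.mem_filter, Fintype.mem_piFinset]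
    refine and_congr_left' ?_
    exact (@Fintype.mem_piFinset _ (fun a b => Classical.propDecidable (a = b)) _ _ _ _).symm
  have hlog : 0 ≤ Real.log y := Real.log_nonneg hy
  have h2 : ∑ n ∈ AF K y, (3 : ℝ) ^ n.card =
      (((AF K y).sigma fun n => (Finset.univ : Finset (n → Fin 3))).card : ℝ) := by
    rw [Finset.card_sigma, Nat.cast_sum]
    refine Finset.sum_congr rfl fun n _ => ?_
    rw [Finset.card_univ, Fintype.card_fun, Fintype.card_fin, Fintype.card_coe, Nat.cast_pow]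
    rfl
  have h3 : ((AF K y).sigma fun n => (Finset.univ : Finset (n → Fin 3))).card ≤
      ((Fintype.piFinset fun _ : Fin 3 => AF K y).filter (fun g => ∏ a, nr (g a) ≤ y)).card := by
    refine Finset.card_le_card_of_injOn cut ?_ cut_inj.injOn
    intro z hz
    rw [Finset.mem_coe, Finset.mem_sigma, mem_AF] at hz
    rw [Finset.mem_coe, Finset.mem_filter, Fintype.mem_piFinset]
    refine ⟨fun a => mem_AF.2 ((nr_mono ?_).trans hz.1), ?_⟩
    · exact Finset.filter_subset _ _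
    · rw [cut_prod]
      exact hz.1
  rw [h2]
  refine (Nat.cast_le.2 h3).trans (h1.trans ?_)
  rw [Fintype.card_fin]
  refine mul_le_mul_of_nonneg_right (mul_le_mul_of_nonneg_right (le_max_left _ _) (by linarith)) (by positivity)

theorem lqt (K Ω : Type) [Field K] [NumberField K] [Field Ω] [Algebra K Ω] :
    ∃ C : ℝ, 1 ≤ C ∧ ∀ (𝔪 : Ideal (𝓞 K)) (x : H57.LI.AP K Ω 𝔪) (Y : ℝ), 1 ≤ Y →
      |∑ q ∈ IN K Y, x.lq q| ≤ C * Y * (1 + Real.log Y) ^ 2 := by
  obtain ⟨C, hC, h⟩ := af3 K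
  refine ⟨C, hC, fun 𝔪 x Y hY => ?_⟩
  refine le_trans ?_ (h Y hY)
  rw [H57.LI.sum_lq x Y (by linarith)]
  unfold H57.LI.Pr.SS
  have hS : (H57.LI.prK K).SF Y = AF K Y := by
    ext s
    rw [(H57.LI.prK K).mem_SF, mem_AF, H57.LI.prK_nn, H57.LI.idl_norm]
    rfl
  rw [hS]
  refine (Finset.abs_sum_le_sum_abs _ _).trans (Finset.sum_le_sum fun s _ => ?_)
  unfold H57.LI.pd
  rw [Finset.abs_prod, ← Finset.prod_const]
  exact Finset.prod_le_prod (fun _ _ => abs_nonneg _) (fun l _ => H57.LI.lam_le x l)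

end H38.EN
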