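import Pool.Agent.H38.EN.Defs

/-!
# [H38 EN BLK] one dyadic block of the error term (pure analysis), 100-150 lines. File Pool/Agent/H38/EN/Blk.lean

All fields of `e : ED ι α` (`Defs.lean`) are hypotheses. `R = 2 ^ (k + 1)`. Take `A₁ = e.A + 1`, `B = 4`, `ε = 1 / 2` in `e.F2`, which gives `R₀`; `k₀` with `R₀ ≤ 2 ^ k₀` and `e.C ≤ 2 ^ k₀`.
For `i ∈ T`: `Y i = X / c i ≥ exp ((log log R)^3) ≥ 1` (`R ≥ 3 > e`, so `log log R ≥ 0`), `Y i ≤ X / 2 ^ k = 2 X / R`. `J = {x | (∃ i ∈ T, x ∈ Z i) ∧ ∃ Y ≥ exp ((log log R)^3), Y / (log R)^4 < F x Y}`; `D x ≤ C (c i)^A ≤ C R^A ≤ R^(A+1)`. So `J` is finite and `ncard J ≤ R^(1/2)`.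
`E i (Y i) ≤ C + C ∑_{x ∈ Z i} F x (Y i)` (`E1`). If `x ∉ J`: `F x (Y i) ≤ Y i / (log R)^4 ≤ (2 X / R) / (log R)^4`. If `x ∈ J`: `F x (Y i) ≤ C (Y i) (1 + log (Y i))^2 ≤ C (2 X / R) (1 + log X)^2` (`FT`).
So `∑_{i ∈ T} E i (Y i) ≤ C #T + C (2 X / R) / (log R)^4 ∑_{i ∈ T} #(Z i) + C (number of pairs (i, x), i ∈ T, x ∈ Z i ∩ J) C (2 X / R) (1 + log X)^2`. `#T ≤ ∑ s i` (`s1`), `∑ #(Z i) ≤ C ∑ s i` (`Zc`), `∑_{i ∈ T} s i ≤ C R (1 + log R)^(2 - δ) ≤ C R (1 + log R)^2` (`sm`), number of pairs `≤ 3 ncard J ≤ 3 R^(1/2)` (`Zm`, `Finset.sum_comm`).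
`log R = (k + 1) log 2 ≥ (k + 1) / 2`, `1 + log R ≤ 2 (k + 1)`: `(1 + log R)^2 / (log R)^4 ≤ 64 / (k + 1)^2`.
-/

set_option autoImplicit false

open scoped NumberField Classical
open Filter Topology

noncomputable section

namespace H38.EN

variable {ι α : Type}

private theorem pairs (e : ED ι α) (T : Finset ι) (hT : ∀ i ∈ T, i ∈ e.P) (J : Set α)
    (hJ : J.Finite) :
    ∑ i ∈ T, (((e.Z i).filter (fun x => x ∈ J)).card : ℝ) ≤ 3 * (J.ncard : ℝ) := by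
  have h1 : ∀ i, (e.Z i).filter (fun x => x ∈ J) = hJ.toFinset.filter (fun x => x ∈ e.Z i) := by
    intro i
    ext x
    rw [Finset.mem_filter, Finset.mem_filter, Set.Finite.mem_toFinset, and_comm]
  have h2 : ∑ i ∈ T, ((e.Z i).filter (fun x => x ∈ J)).card ≤ 3 * J.ncard := by
    calc ∑ i ∈ T, ((e.Z i).filter (fun x => x ∈ J)).card
        = ∑ i ∈ T, ∑ x ∈ hJ.toFinset, (if x ∈ e.Z i then 1 else 0) := by
          refine Finset.sum_congr rfl fun i _ => ?_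
          rw [h1, Finset.card_filter]
      _ = ∑ x ∈ hJ.toFinset, ∑ i ∈ T, (if x ∈ e.Z i then 1 else 0) := Finset.sum_comm
      _ = ∑ x ∈ hJ.toFinset, (T.filter (fun i => x ∈ e.Z i)).card := by
          refine Finset.sum_congr rfl fun x _ => ?_
          rw [Finset.card_filter]
      _ ≤ ∑ x ∈ hJ.toFinset, 3 := by
          refine Finset.sum_le_sum fun x _ => ?_
          refine e.Zm x _ fun i hi => ?_
          rw [Finset.mem_filter] at hi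
          exact ⟨hT i hi.1, hi.2⟩
      _ = 3 * J.ncard := by
          rw [Finset.sum_const, smul_eq_mul, mul_comm, Set.ncard_eq_toFinset_card J hJ]
  exact_mod_cast h2

private theorem logs (k : ℕ) : ((k : ℝ) + 1) / 2 ≤ Real.log ((2 : ℝ) ^ (k + 1)) ∧
    1 + Real.log ((2 : ℝ) ^ (k + 1)) ≤ 2 * ((k : ℝ) + 1) := by
  rw [Real.log_pow]
  push_cast
  have h1 := Real.log_two_gt_d9
  have h2 := Real.log_two_lt_d9
  have h3 : (0 : ℝ) ≤ (k : ℝ) := Nat.cast_nonneg k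
  constructor <;> nlinarith

private theorem ratio (k : ℕ) : (1 + Real.log ((2 : ℝ) ^ (k + 1))) ^ 2 /
    Real.log ((2 : ℝ) ^ (k + 1)) ^ 4 ≤ 64 / ((k : ℝ) + 1) ^ 2 := by
  obtain ⟨h1, h2⟩ := logs k
  have h3 : (0 : ℝ) < (k : ℝ) + 1 := by positivity
  obtain ⟨l, hl⟩ : ∃ l : ℝ, l = Real.log ((2 : ℝ) ^ (k + 1)) := ⟨_, rfl⟩
  rw [← hl] at h1 h2 ⊢
  obtain ⟨q, hq⟩ : ∃ q : ℝ, q = (k : ℝ) + 1 := ⟨_, rfl⟩
  rw [← hq] at h1 h2 h3 ⊢
  have h4 : 0 < l := by linarith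
  rw [div_le_div_iff₀ (by positivity) (by positivity)]
  have h5 : (1 + l) ^ 2 ≤ (2 * q) ^ 2 := pow_le_pow_left₀ (by linarith) h2 2
  have h6 : (q / 2) ^ 4 ≤ l ^ 4 := pow_le_pow_left₀ (by linarith) h1 4
  calc (1 + l) ^ 2 * q ^ 2 ≤ (2 * q) ^ 2 * q ^ 2 := mul_le_mul_of_nonneg_right h5 (by positivity)
    _ = 64 * (q / 2) ^ 4 := by ring
    _ ≤ 64 * l ^ 4 := by linarith

theorem blk (e : ED ι α) : ∃ (C' : ℝ) (k₀ : ℕ), 0 < C' ∧ ∀ k : ℕ, k₀ ≤ k → ∀ X : ℝ, 1 ≤ X →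
    ∀ T : Finset ι, (∀ i ∈ T, i ∈ e.P ∧ (2 : ℝ) ^ k < e.c i ∧ e.c i ≤ (2 : ℝ) ^ (k + 1) ∧
      Real.exp (Real.log (Real.log ((2 : ℝ) ^ (k + 1))) ^ 3) ≤ X / e.c i) →
    ∑ i ∈ T, e.E i (X / e.c i) ≤ C' * (∑ i ∈ T, e.s i + X / ((k : ℝ) + 1) ^ 2 +
      X * (1 + Real.log X) ^ 2 * (2 : ℝ) ^ (-(((k : ℝ) + 1) / 2))) := by
  obtain ⟨R₀, hR₀3, hF2⟩ := e.F2 (e.A + 1) 4 (1 / 2) (by norm_num)
  obtain ⟨k₁, hk₁⟩ := pow_unbounded_of_one_lt (max R₀ e.C) (one_lt_two : (1 : ℝ) < 2)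
  have hC1 := e.C1
  have hC0 : 0 < e.C := by linarith
  refine ⟨e.C + 128 * e.C ^ 3 + 6 * e.C ^ 2, k₁ + 1, by positivity, ?_⟩
  intro k hk X hX T hT
  have hX0 : 0 < X := by linarith
  obtain ⟨R, hR⟩ : ∃ R : ℝ, R = (2 : ℝ) ^ (k + 1) := ⟨_, rfl⟩
  have hRk : R = 2 * (2 : ℝ) ^ k := by rw [hR, pow_succ]; ring
  have hmono : (2 : ℝ) ^ k₁ ≤ R := by
    rw [hR]
    exact pow_le_pow_right₀ one_le_two (by omega)
  have hRR₀ : R₀ ≤ R := (le_max_left _ _).trans (hk₁.le.trans hmono)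
  have hRC : e.C ≤ R := (le_max_right _ _).trans (hk₁.le.trans hmono)
  have hR4 : 4 ≤ R := by
    rw [hR]
    calc (4 : ℝ) = 2 ^ 2 := by norm_num
      _ ≤ 2 ^ (k + 1) := pow_le_pow_right₀ one_le_two (by omega)
  have hR0 : 0 < R := by linarith
  have hlR : 1 ≤ Real.log R := by
    rw [Real.le_log_iff_exp_le hR0]
    have := Real.exp_one_lt_d9
    linarith
  have hllR : 0 ≤ Real.log (Real.log R) := Real.log_nonneg hlR
  rw [← hR] at hT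
  have hY1 : ∀ i ∈ T, 1 ≤ X / e.c i := by
    intro i hi
    refine le_trans ?_ (hT i hi).2.2.2
    rw [← Real.exp_zero]
    exact Real.exp_le_exp.2 (pow_nonneg hllR 3)
  have h2k : (1 : ℝ) ≤ 2 ^ k := one_le_pow₀ one_le_two
  have hY2 : ∀ i ∈ T, X / e.c i ≤ 2 * X / R := by
    intro i hi
    have h1 := (hT i hi).2.1
    rw [hRk, mul_div_mul_left _ _ (two_ne_zero)]
    exact div_le_div_of_nonneg_left hX0.le (by positivity) h1.le
  have hYX : ∀ i ∈ T, X / e.c i ≤ X := by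
    intro i hi
    have h1 := (hT i hi).2.1
    exact div_le_self hX0.le (h2k.trans h1.le)
  obtain ⟨J, hJdef⟩ : ∃ J : Set α, J = {x | (∃ i ∈ T, x ∈ e.Z i) ∧ ∃ Y : ℝ,
      Real.exp (Real.log (Real.log R) ^ 3) ≤ Y ∧ Y / Real.log R ^ 4 < e.F x Y} := ⟨_, rfl⟩
  obtain ⟨hJf, hJc⟩ := hF2 R hRR₀ J (by
    intro x hx
    rw [hJdef] at hx
    obtain ⟨⟨i, hi, hxi⟩, hY⟩ := hx
    refine ⟨?_, hY⟩
    have h1 := e.Dc i (hT i hi).1 x hxi
    have h2 : 0 ≤ e.c i := by linarith [e.c1 i (hT i hi).1]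
    calc e.D x ≤ e.C * e.c i ^ e.A := h1
      _ ≤ R * R ^ e.A := mul_le_mul hRC (pow_le_pow_left₀ h2 (hT i hi).2.2.1 _)
          (by positivity) hR0.le
      _ = R ^ (e.A + 1) := by rw [pow_succ]; ring)
  have hlX : 0 ≤ Real.log X := Real.log_nonneg hX
  obtain ⟨a, ha⟩ : ∃ a : ℝ, a = 2 * X / R / Real.log R ^ 4 := ⟨_, rfl⟩
  obtain ⟨b, hb⟩ : ∃ b : ℝ, b = e.C * (2 * X / R) * (1 + Real.log X) ^ 2 := ⟨_, rfl⟩
  have ha0 : 0 ≤ a := by rw [ha]; positivity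
  have hb0 : 0 ≤ b := by rw [hb]; positivity
  -- bound of F
  have hF : ∀ i ∈ T, ∀ x ∈ e.Z i, e.F x (X / e.c i) ≤ a + (if x ∈ J then b else 0) := by
    intro i hi x hx
    by_cases hxJ : x ∈ J
    · rw [if_pos hxJ]
      have h1 := e.FT x (X / e.c i) (hY1 i hi)
      have h2 : 0 ≤ Real.log (X / e.c i) := Real.log_nonneg (hY1 i hi)
      have h3 : Real.log (X / e.c i) ≤ Real.log X :=
        Real.log_le_log (by linarith [hY1 i hi]) (hYX i hi)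
      have h4 : e.C * (X / e.c i) * (1 + Real.log (X / e.c i)) ^ 2 ≤ b := by
        rw [hb]
        refine mul_le_mul (mul_le_mul_of_nonneg_left (hY2 i hi) hC0.le)
          (pow_le_pow_left₀ (by linarith) (by linarith) 2) (by positivity) (by positivity)
      linarith
    · rw [if_neg hxJ, add_zero]
      have h1 : ¬ (X / e.c i / Real.log R ^ 4 < e.F x (X / e.c i)) := by
        intro h2
        apply hxJ
        rw [hJdef]
        exact ⟨⟨i, hi, hx⟩, _, (hT i hi).2.2.2, h2⟩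
      push Not at h1
      refine h1.trans ?_
      rw [ha]
      exact div_le_div_of_nonneg_right (hY2 i hi) (by positivity)
  have hE : ∀ i ∈ T, e.E i (X / e.c i) ≤ e.C + e.C * (a * ((e.Z i).card : ℝ) +
      b * (((e.Z i).filter (fun x => x ∈ J)).card : ℝ)) := by
    intro i hi
    have h1 := e.E1 i (hT i hi).1 (X / e.c i) (hY1 i hi)
    have h2 : ∑ x ∈ e.Z i, e.F x (X / e.c i) ≤ a * ((e.Z i).card : ℝ) +
        b * (((e.Z i).filter (fun x => x ∈ J)).card : ℝ) := by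
      refine (Finset.sum_le_sum (hF i hi)).trans (le_of_eq ?_)
      rw [Finset.sum_add_distrib, Finset.sum_const, nsmul_eq_mul, ← Finset.sum_filter,
        Finset.sum_const, nsmul_eq_mul, mul_comm a, mul_comm b]
    have h3 := mul_le_mul_of_nonneg_left h2 hC0.le
    linarith
  have hTP : ∀ i ∈ T, i ∈ e.P := fun i hi => (hT i hi).1
  have hsum1 : (T.card : ℝ) ≤ ∑ i ∈ T, e.s i := by
    have h1 : ∑ i ∈ T, (1 : ℝ) ≤ ∑ i ∈ T, e.s i :=
      Finset.sum_le_sum fun i hi => e.s1 i (hTP i hi)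
    simpa using h1
  have hsum2 : ∑ i ∈ T, ((e.Z i).card : ℝ) ≤ e.C * (e.C * R * (1 + Real.log R) ^ 2) := by
    have h1 : ∑ i ∈ T, ((e.Z i).card : ℝ) ≤ ∑ i ∈ T, e.C * e.s i :=
      Finset.sum_le_sum fun i hi => e.Zc i (hTP i hi)
    rw [← Finset.mul_sum] at h1
    have h2 := e.sm R (by linarith) T (fun i hi => ⟨hTP i hi, (hT i hi).2.2.1⟩)
    have h3 : (1 + Real.log R) ^ (2 - e.δ) ≤ (1 + Real.log R) ^ 2 := by
      rw [← Real.rpow_natCast (1 + Real.log R) 2]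
      refine Real.rpow_le_rpow_of_exponent_le (by linarith) ?_
      push_cast
      linarith [e.δ0]
    have h4 : e.C * R * (1 + Real.log R) ^ (2 - e.δ) ≤ e.C * R * (1 + Real.log R) ^ 2 :=
      mul_le_mul_of_nonneg_left h3 (by positivity)
    exact h1.trans (mul_le_mul_of_nonneg_left (h2.trans h4) hC0.le)
  have hsum3 : ∑ i ∈ T, (((e.Z i).filter (fun x => x ∈ J)).card : ℝ) ≤
      3 * R ^ (1 / 2 : ℝ) := (pairs e T hTP J hJf).trans (by linarith)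
  have htot : ∑ i ∈ T, e.E i (X / e.c i) ≤ e.C * ∑ i ∈ T, e.s i +
      e.C * (a * (e.C * (e.C * R * (1 + Real.log R) ^ 2)) + b * (3 * R ^ (1 / 2 : ℝ))) := by
    calc ∑ i ∈ T, e.E i (X / e.c i) ≤ ∑ i ∈ T, (e.C + e.C * (a * ((e.Z i).card : ℝ) +
          b * (((e.Z i).filter (fun x => x ∈ J)).card : ℝ))) := Finset.sum_le_sum hE
      _ = e.C * (T.card : ℝ) + e.C * (a * ∑ i ∈ T, ((e.Z i).card : ℝ) +
          b * ∑ i ∈ T, (((e.Z i).filter (fun x => x ∈ J)).card : ℝ)) := by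
          rw [Finset.sum_add_distrib, Finset.sum_const, nsmul_eq_mul, ← Finset.mul_sum,
            Finset.sum_add_distrib, ← Finset.mul_sum, ← Finset.mul_sum]
          ring
      _ ≤ _ := by
          have h1 := mul_le_mul_of_nonneg_left hsum1 hC0.le
          have h2 := mul_le_mul_of_nonneg_left hsum2 ha0
          have h3 := mul_le_mul_of_nonneg_left hsum3 hb0
          have h4 := mul_le_mul_of_nonneg_left (add_le_add h2 h3) hC0.le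
          linarith
  have hA : e.C * (a * (e.C * (e.C * R * (1 + Real.log R) ^ 2))) ≤
      128 * e.C ^ 3 * (X / ((k : ℝ) + 1) ^ 2) := by
    have h1 := ratio k
    rw [← hR] at h1
    have h2 : e.C * (a * (e.C * (e.C * R * (1 + Real.log R) ^ 2))) =
        2 * e.C ^ 3 * X * ((1 + Real.log R) ^ 2 / Real.log R ^ 4) := by
      rw [ha]
      have : Real.log R ≠ 0 := by linarith
      field_simp
    rw [h2]
    calc 2 * e.C ^ 3 * X * ((1 + Real.log R) ^ 2 / Real.log R ^ 4)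
        ≤ 2 * e.C ^ 3 * X * (64 / ((k : ℝ) + 1) ^ 2) :=
          mul_le_mul_of_nonneg_left h1 (by positivity)
      _ = 128 * e.C ^ 3 * (X / ((k : ℝ) + 1) ^ 2) := by ring
  have hRh : R ^ (1 / 2 : ℝ) / R = (2 : ℝ) ^ (-(((k : ℝ) + 1) / 2)) := by
    have h1 : R = (2 : ℝ) ^ ((k : ℝ) + 1) := by
      rw [hR, ← Real.rpow_natCast]
      push_cast
      rfl
    have h2 : R ^ (1 / 2 : ℝ) / R = R ^ (-(1 / 2) : ℝ) := by
      rw [div_eq_iff hR0.ne', ← Real.rpow_add_one hR0.ne']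
      norm_num
    rw [h2, h1, ← Real.rpow_mul (by norm_num)]
    congr 1
    ring
  have hB : e.C * (b * (3 * R ^ (1 / 2 : ℝ))) =
      6 * e.C ^ 2 * (X * (1 + Real.log X) ^ 2 * (2 : ℝ) ^ (-(((k : ℝ) + 1) / 2))) := by
    rw [← hRh, hb]
    ring
  have hs0 : 0 ≤ ∑ i ∈ T, e.s i := le_trans (Nat.cast_nonneg _) hsum1
  have hp1 : 0 ≤ X / ((k : ℝ) + 1) ^ 2 := by positivity
  have hp2 : 0 ≤ X * (1 + Real.log X) ^ 2 * (2 : ℝ) ^ (-(((k : ℝ) + 1) / 2)) := by positivity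
  obtain ⟨u, hu⟩ : ∃ u : ℝ, u = ∑ i ∈ T, e.s i := ⟨_, rfl⟩
  obtain ⟨v, hv⟩ : ∃ v : ℝ, v = X / ((k : ℝ) + 1) ^ 2 := ⟨_, rfl⟩
  obtain ⟨w, hw⟩ : ∃ w : ℝ, w = X * (1 + Real.log X) ^ 2 *
    (2 : ℝ) ^ (-(((k : ℝ) + 1) / 2)) := ⟨_, rfl⟩
  rw [← hu, ← hv, ← hw]
  rw [← hu] at htot hs0
  rw [← hv] at hA hp1
  rw [← hw] at hB hp2
  have hc2 : 0 ≤ e.C ^ 2 := by positivity
  have hc3 : 0 ≤ e.C ^ 3 := by positivity
  have f1 : e.C * (u + v + w) = e.C * u + e.C * v + e.C * w := by ring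
  have f2 : 0 ≤ e.C * v := by positivity
  have f3 : 0 ≤ e.C * w := by positivity
  have f4 : 0 ≤ 128 * e.C ^ 3 * u := by positivity
  have f5 : 0 ≤ 128 * e.C ^ 3 * w := by positivity
  have f6 : 0 ≤ 6 * e.C ^ 2 * u := by positivity
  have f7 : 0 ≤ 6 * e.C ^ 2 * v := by positivity
  calc ∑ i ∈ T, e.E i (X / e.c i) ≤ e.C * u +
      e.C * (a * (e.C * (e.C * R * (1 + Real.log R) ^ 2)) + b * (3 * R ^ (1 / 2 : ℝ))) := htot
    _ = e.C * u + (e.C * (a * (e.C * (e.C * R * (1 + Real.log R) ^ 2))) +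
        e.C * (b * (3 * R ^ (1 / 2 : ℝ)))) := by ring
    _ ≤ e.C * u + (128 * e.C ^ 3 * v + 6 * e.C ^ 2 * w) := by rw [hB]; linarith
    _ ≤ _ := by
        have : (e.C + 128 * e.C ^ 3 + 6 * e.C ^ 2) * (u + v + w) =
          e.C * u + e.C * v + e.C * w + (128 * e.C ^ 3 * u + 128 * e.C ^ 3 * v +
          128 * e.C ^ 3 * w) + (6 * e.C ^ 2 * u + 6 * e.C ^ 2 * v + 6 * e.C ^ 2 * w) := by ring
        rw [this]
        linarith

end H38.EN
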