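import Pool.Agent.H38.MT.Defs
import Pool.Agent.H48.T3.Defs

/-!
# H38/EN: the end of T3 (MP_b39724_nt). Definitions (complete)

* `tf k Q S φ`: the finite set of the primes outside `S` at which `φ` is ramified, with inertia group mapped to `V`.
* `ND`: the surjective homomorphisms with `ds φ = d` and `cf (k.pi ∘ φ) * nr (tf φ) ≤ X`.
* `ED ι α`: abstract data for the error term. `ι`: the characters of order 3, `c` the conductor, `s` the number of classes, `Z i` the set of the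
  pairs (cubic field, quadratic character) of `i`, `D` the discriminant, `F x Y` the absolute value of the sum of the pair `x`, `E i Y` the error.
-/

set_option autoImplicit false

open scoped NumberField Classical
open IsDedekindDomain H38.ML H63.MA H48.KV Filter Topology

noncomputable section

namespace H38.EN

section con

variable {K : IntermediateField ℚ QBar} [NumberField K] {G : Type} [Group G]

/-- the finite set of the primes outside `S` at which `φ` is ramified, with inertia group mapped to `V` -/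
def tf (k : KV G) (Q : DP K QBar) (S : Finset (Pl K)) (φ : Gal(QBar/K) →* G) : Finset (Pl K) :=
  if h : (TV k Q S φ).Finite then h.toFinset else ∅

/-- the surjective homomorphisms with `ds φ = d` and `cf (k.pi ∘ φ) * nr (tf φ) ≤ X` -/
def ND (k : KV G) (Q : DP K QBar) (S : Finset (Pl K)) (ds : (Gal(QBar/K) →* G) → ℕ) (d : ℕ)
    (X : ℝ) : Set (Gal(QBar/K) →* G) :=
  {φ | FT φ ∧ Function.Surjective φ ∧ ds φ = d ∧
    H38.MT.cf Q S (k.pi.comp φ) * nr (tf k Q S φ) ≤ X}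

end con

/-- abstract data for the error term -/
structure ED (ι α : Type) where
  P : Set ι
  c : ι → ℝ
  s : ι → ℝ
  Z : ι → Finset α
  D : α → ℝ
  F : α → ℝ → ℝ
  E : ι → ℝ → ℝ
  C : ℝ
  δ : ℝ
  A : ℕ
  C1 : 1 ≤ C
  δ0 : 0 < δ
  δ1 : δ ≤ 1
  c1 : ∀ i ∈ P, 1 ≤ c i
  s1 : ∀ i ∈ P, 1 ≤ s i
  fin : ∀ X : ℝ, {i | i ∈ P ∧ c i ≤ X}.Finite
  sm : ∀ R : ℝ, 1 ≤ R → ∀ T : Finset ι, (∀ i ∈ T, i ∈ P ∧ c i ≤ R) →
    ∑ i ∈ T, s i ≤ C * R * (1 + Real.log R) ^ (2 - δ)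
  Zc : ∀ i ∈ P, ((Z i).card : ℝ) ≤ C * s i
  Zm : ∀ (x : α) (T : Finset ι), (∀ i ∈ T, i ∈ P ∧ x ∈ Z i) → T.card ≤ 3
  Dc : ∀ i ∈ P, ∀ x ∈ Z i, D x ≤ C * c i ^ A
  F0 : ∀ x Y, 0 ≤ F x Y
  FT : ∀ x Y, 1 ≤ Y → F x Y ≤ C * Y * (1 + Real.log Y) ^ 2
  F1 : ∀ x, ∃ Cx : ℝ, ∀ Y, 1 ≤ Y → F x Y ≤ Cx * Y
  F2 : ∀ (A₁ B : ℕ) (ε : ℝ), 0 < ε → ∃ R₀ : ℝ, 3 ≤ R₀ ∧ ∀ R : ℝ, R₀ ≤ R → ∀ J : Set α,
    (∀ x ∈ J, D x ≤ R ^ A₁ ∧ ∃ Y : ℝ, Real.exp (Real.log (Real.log R) ^ 3) ≤ Y ∧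
      Y / Real.log R ^ B < F x Y) →
    J.Finite ∧ (J.ncard : ℝ) ≤ R ^ ε
  E0 : ∀ i Y, 0 ≤ E i Y
  E1 : ∀ i ∈ P, ∀ Y, 1 ≤ Y → E i Y ≤ C + C * ∑ x ∈ Z i, F x Y
  E2 : ∀ i ∈ P, ∀ Y, 1 ≤ Y → E i Y ≤ C * s i * Y * (1 + Real.log Y) ^ 2

end H38.EN
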