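import Pool.Agent.H38.EN.Defs

/-!
# [H38 EN TOP] the top range of the error term (pure analysis), 70-110 lines. File Pool/Agent/H38/EN/Top.lean

`E i (X / c i) ≤ C s i (X / c i) (1 + log (X / c i))^2 ≤ C s i (X / c i) (1 + log Y₀)^2` (`e.E2`; `1 ≤ X / c i ≤ Y₀`). For `i ∈ T` let `j i = Nat.log 2 ⌊X / c i⌋₊` (`2 ^ j ≤ X / c i < 2 ^ (j + 1)`), `j i ≤ log Y₀ / log 2 ≤ 2 log Y₀`. In the fibre of `j`: `X / c i ≤ 2 ^ (j + 1)` and `c i ≤ X / 2 ^ j` with `X / 2 ^ j ≥ c i ≥ 1`, so by `e.sm`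
`∑ s i (X / c i) ≤ 2 ^ (j + 1) C (X / 2 ^ j) (1 + log (X / 2 ^ j))^(2 - δ) ≤ 2 C X (1 + log X)^(2 - δ)`. The number of values of `j` is at most `1 + 2 log Y₀ ≤ 2 (1 + log Y₀)`. `C' = 4 C ^ 2`.
-/

set_option autoImplicit false

open scoped NumberField Classical
open Filter Topology

noncomputable section

namespace H38.EN

variable {ι α : Type}

theorem top (e : ED ι α) : ∃ C' : ℝ, 0 < C' ∧ ∀ X Y₀ : ℝ, 1 ≤ X → 1 ≤ Y₀ → ∀ T : Finset ι,
    (∀ i ∈ T, i ∈ e.P ∧ e.c i ≤ X ∧ X / e.c i ≤ Y₀) →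
    ∑ i ∈ T, e.E i (X / e.c i) ≤
      C' * (X * (1 + Real.log X) ^ (2 - e.δ) * (1 + Real.log Y₀) ^ 3) := by
  have hC : 0 < e.C := lt_of_lt_of_le one_pos e.C1
  refine ⟨4 * e.C ^ 2, by positivity, ?_⟩
  intro X Y₀ hX hY T hT
  have hX0 : 0 < X := lt_of_lt_of_le one_pos hX
  have hY0 : 0 < Y₀ := lt_of_lt_of_le one_pos hY
  have hLX : 0 ≤ Real.log X := Real.log_nonneg hX
  have hLY : 0 ≤ Real.log Y₀ := Real.log_nonneg hY
  have hex : 0 ≤ 2 - e.δ := by linarith [e.δ1]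
  have hA0 : 0 ≤ (1 + Real.log X) ^ (2 - e.δ) := Real.rpow_nonneg (by linarith) _
  have hc0 : ∀ i ∈ T, 0 < e.c i := fun i hi => lt_of_lt_of_le one_pos (e.c1 i (hT i hi).1)
  have hone : ∀ i ∈ T, 1 ≤ X / e.c i := fun i hi => (one_le_div (hc0 i hi)).2 (hT i hi).2.1
  have hs0 : ∀ i ∈ T, 0 ≤ e.s i := fun i hi => le_trans zero_le_one (e.s1 i (hT i hi).1)
  -- the exponents
  set j : ι → ℕ := fun i => Nat.log 2 ⌊X / e.c i⌋₊ with hj
  set J : ℕ := Nat.log 2 ⌊Y₀⌋₊ with hJ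
  have hlow : ∀ i ∈ T, (2 : ℝ) ^ j i ≤ X / e.c i := by
    intro i hi
    have h1 : ⌊X / e.c i⌋₊ ≠ 0 := (Nat.floor_pos.2 (hone i hi)).ne'
    have h2 : 2 ^ j i ≤ ⌊X / e.c i⌋₊ := Nat.pow_log_le_self 2 h1
    have h3 : ((2 ^ j i : ℕ) : ℝ) ≤ (⌊X / e.c i⌋₊ : ℝ) := by exact_mod_cast h2
    push_cast at h3
    exact h3.trans (Nat.floor_le (by linarith [hone i hi]))
  have hup : ∀ i ∈ T, X / e.c i ≤ 2 ^ (j i + 1) := by
    intro i hi
    have h2 : ⌊X / e.c i⌋₊ < 2 ^ (j i + 1) := Nat.lt_pow_succ_log_self (by norm_num) _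
    have h3 : ((⌊X / e.c i⌋₊ + 1 : ℕ) : ℝ) ≤ ((2 ^ (j i + 1) : ℕ) : ℝ) := by exact_mod_cast h2
    push_cast at h3
    exact (Nat.lt_floor_add_one _).le.trans h3
  have hmaps : ∀ i ∈ T, j i ∈ Finset.range (J + 1) := by
    intro i hi
    rw [Finset.mem_range, Nat.lt_succ_iff]
    exact Nat.log_mono_right (Nat.floor_le_floor (hT i hi).2.2)
  have hcard : ((Finset.range (J + 1)).card : ℝ) ≤ 2 * (1 + Real.log Y₀) := by
    rw [Finset.card_range]
    push_cast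
    have h1 : ⌊Y₀⌋₊ ≠ 0 := (Nat.floor_pos.2 hY).ne'
    have h2 : 2 ^ J ≤ ⌊Y₀⌋₊ := Nat.pow_log_le_self 2 h1
    have h3 : ((2 ^ J : ℕ) : ℝ) ≤ (⌊Y₀⌋₊ : ℝ) := by exact_mod_cast h2
    push_cast at h3
    have h4 : (2 : ℝ) ^ J ≤ Y₀ := h3.trans (Nat.floor_le hY0.le)
    have h5 := Real.log_le_log (by positivity) h4
    rw [Real.log_pow] at h5
    have h6 := Real.log_two_gt_d9
    have h7 : (0 : ℝ) ≤ J := Nat.cast_nonneg J
    nlinarith
  have hfib : ∀ k ∈ Finset.range (J + 1), ∑ i ∈ T with j i = k, e.s i * (X / e.c i) ≤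
      2 * e.C * (X * (1 + Real.log X) ^ (2 - e.δ)) := by
    intro k _
    rcases Finset.eq_empty_or_nonempty (T.filter fun i => j i = k) with h | ⟨i0, h0⟩
    · rw [h, Finset.sum_empty]
      positivity
    · obtain ⟨hi0, hj0⟩ := Finset.mem_filter.1 h0
      have h1 : (2 : ℝ) ^ k ≤ X / e.c i0 := by rw [← hj0]; exact hlow i0 hi0
      have hpk : (0 : ℝ) < 2 ^ k := by positivity
      have h2 : (1 : ℝ) ≤ X / 2 ^ k := by
        rw [one_le_div hpk]
        exact h1.trans (div_le_self hX0.le (e.c1 i0 (hT i0 hi0).1))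
      have h3 := e.sm (X / 2 ^ k) h2 (T.filter fun i => j i = k) (by
        intro i hi
        obtain ⟨hi1, hi2⟩ := Finset.mem_filter.1 hi
        refine ⟨(hT i hi1).1, ?_⟩
        have h4 := hlow i hi1
        rw [hi2, le_div_iff₀ (hc0 i hi1)] at h4
        rw [le_div_iff₀ hpk]
        linarith [mul_comm (e.c i) ((2 : ℝ) ^ k)])
      have h5 : Real.log (X / 2 ^ k) ≤ Real.log X :=
        Real.log_le_log (by positivity) (div_le_self hX0.le (one_le_pow₀ (by norm_num)))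
      have h6 : (1 + Real.log (X / 2 ^ k)) ^ (2 - e.δ) ≤ (1 + Real.log X) ^ (2 - e.δ) :=
        Real.rpow_le_rpow (by linarith [Real.log_nonneg h2]) (by linarith) hex
      calc ∑ i ∈ T with j i = k, e.s i * (X / e.c i)
          ≤ ∑ i ∈ T with j i = k, e.s i * 2 ^ (k + 1) := by
            refine Finset.sum_le_sum fun i hi => ?_
            obtain ⟨hi1, hi2⟩ := Finset.mem_filter.1 hi
            refine mul_le_mul_of_nonneg_left ?_ (hs0 i hi1)
            rw [← hi2]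
            exact hup i hi1
        _ = (∑ i ∈ T with j i = k, e.s i) * 2 ^ (k + 1) := by rw [Finset.sum_mul]
        _ ≤ (e.C * (X / 2 ^ k) * (1 + Real.log (X / 2 ^ k)) ^ (2 - e.δ)) * 2 ^ (k + 1) :=
            mul_le_mul_of_nonneg_right h3 (by positivity)
        _ ≤ (e.C * (X / 2 ^ k) * (1 + Real.log X) ^ (2 - e.δ)) * 2 ^ (k + 1) := by
            refine mul_le_mul_of_nonneg_right (mul_le_mul_of_nonneg_left h6 ?_) (by positivity)
            positivity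
        _ = 2 * e.C * (X * (1 + Real.log X) ^ (2 - e.δ)) := by
            rw [pow_succ]
            field_simp
  have hsum : ∑ i ∈ T, e.s i * (X / e.c i) ≤
      2 * (1 + Real.log Y₀) * (2 * e.C * (X * (1 + Real.log X) ^ (2 - e.δ))) := by
    rw [← Finset.sum_fiberwise_of_maps_to hmaps]
    refine (Finset.sum_le_card_nsmul _ _ _ hfib).trans ?_
    rw [nsmul_eq_mul]
    refine mul_le_mul_of_nonneg_right hcard ?_
    positivity
  calc ∑ i ∈ T, e.E i (X / e.c i)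
      ≤ ∑ i ∈ T, e.C * (1 + Real.log Y₀) ^ 2 * (e.s i * (X / e.c i)) := by
        refine Finset.sum_le_sum fun i hi => ?_
        have h1 := e.E2 i (hT i hi).1 _ (hone i hi)
        have h2 : Real.log (X / e.c i) ≤ Real.log Y₀ :=
          Real.log_le_log (by linarith [hone i hi]) (hT i hi).2.2
        have h3 : (1 + Real.log (X / e.c i)) ^ 2 ≤ (1 + Real.log Y₀) ^ 2 :=
          pow_le_pow_left₀ (by linarith [Real.log_nonneg (hone i hi)]) (by linarith) 2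
        have h4 : 0 ≤ e.C * e.s i * (X / e.c i) :=
          mul_nonneg (mul_nonneg hC.le (hs0 i hi)) (by linarith [hone i hi])
        calc e.E i (X / e.c i) ≤ e.C * e.s i * (X / e.c i) * (1 + Real.log (X / e.c i)) ^ 2 := h1
          _ ≤ e.C * e.s i * (X / e.c i) * (1 + Real.log Y₀) ^ 2 := mul_le_mul_of_nonneg_left h3 h4
          _ = _ := by ring
    _ = e.C * (1 + Real.log Y₀) ^ 2 * ∑ i ∈ T, e.s i * (X / e.c i) := by rw [Finset.mul_sum]
    _ ≤ e.C * (1 + Real.log Y₀) ^ 2 *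
        (2 * (1 + Real.log Y₀) * (2 * e.C * (X * (1 + Real.log X) ^ (2 - e.δ)))) :=
        mul_le_mul_of_nonneg_left hsum (by positivity)
    _ = 4 * e.C ^ 2 * (X * (1 + Real.log X) ^ (2 - e.δ) * (1 + Real.log Y₀) ^ 3) := by ring

end H38.EN
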