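import Pool.Agent.H38.EN.Mid
import Pool.Agent.H38.EN.Top

/-!
# [H38 EN LIM] the error term tends to zero (pure analysis, assembly), 100-150 lines. File Pool/Agent/H38/EN/Lim.lean

Let `η > 0`. `C', k₀` from `mid`, `k₁ ≥ k₀` with `C' 2^(-k₁/2) ≤ η / 16`. `Y₀ = 2 exp ((log log X)^3)`. Split the set `{i ∈ P, c i ≤ X}` into (a) `c i ≤ 2 ^ k₁`: finitely many `i`, for every one of them `E i (X / c i) ≤ C + C ∑_{x ∈ Z i} Cx (X / c i) ≤ C_i X` for `X ≥ c i` (`e.E1`, `e.F1`), so the sum is `O(X)`;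
(b) `c i > 2 ^ k₁` and `X / c i ≤ Y₀`: `top`, `1 + log Y₀ = 1 + log 2 + (log log X)^3`; `(1 + log X)^(2 - δ) (2 + (log log X)^3)^3 = o((log X)^2)` (`δ > 0`); (c) `c i > 2 ^ k₁`, `X / c i > Y₀ = 2 exp (..)`: then `2 c i ≤ X` (`exp ≥ 1` for `X ≥ 3`) and `mid`: `≤ C' X (1 + log X)^(2 - δ) + (η / 16) X (1 + log X)^2`, `(1 + log X)^2 ≤ 4 (log X)^2` for `X ≥ 3`.
Divide by `X (log X)^2`. (`Metric.tendsto_nhds` or `tendsto_order`/`squeeze`; the quotient is `≥ 0` by `e.E0`.)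
-/

set_option autoImplicit false

open scoped NumberField Classical
open Filter Topology

noncomputable section

namespace H38.EN

variable {ι α : Type}

private theorem lim_log (δ : ℝ) (hδ : 0 < δ) :
    Tendsto (fun X : ℝ => Real.log (Real.log X) ^ 9 / Real.log X ^ δ) atTop (𝓝 0) := by
  have h1 : Tendsto (fun L : ℝ => Real.log L ^ (9 : ℝ) / L ^ δ) atTop (𝓝 0) :=
    (isLittleO_log_rpow_rpow_atTop (9 : ℝ) hδ).tendsto_div_nhds_zero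
  have h2 := h1.comp Real.tendsto_log_atTop
  refine h2.congr fun X => ?_
  change Real.log (Real.log X) ^ (9 : ℝ) / Real.log X ^ δ = _
  congr 1
  rw [← Real.rpow_natCast]
  norm_num

private theorem lim_inv (δ : ℝ) (hδ : 0 < δ) :
    Tendsto (fun X : ℝ => 1 / Real.log X ^ δ) atTop (𝓝 0) := by
  have h1 := ((tendsto_rpow_atTop hδ).comp Real.tendsto_log_atTop).inv_tendsto_atTop
  refine h1.congr fun X => ?_
  change (Real.log X ^ δ)⁻¹ = _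
  rw [one_div]

private theorem lim_pow (δ L : ℝ) (hδ0 : 0 < δ) (hδ1 : δ ≤ 1) (hL : 1 ≤ L) :
    (1 + L) ^ (2 - δ) ≤ 4 * (L ^ 2 / L ^ δ) := by
  have h0 : 0 < L := by linarith
  have h1 : (1 + L) ^ (2 - δ) ≤ (2 * L) ^ (2 - δ) :=
    Real.rpow_le_rpow (by linarith) (by linarith) (by linarith)
  have h2 : (2 * L) ^ (2 - δ) = 2 ^ (2 - δ) * L ^ (2 - δ) := Real.mul_rpow (by norm_num) h0.le
  have h3 : (2 : ℝ) ^ (2 - δ) ≤ 2 ^ (2 : ℝ) :=
    Real.rpow_le_rpow_of_exponent_le (by norm_num) (by linarith)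
  have h4 : (2 : ℝ) ^ (2 : ℝ) = 4 := by
    rw [show (2 : ℝ) ^ (2 : ℝ) = (2 : ℝ) ^ (2 : ℕ) from Real.rpow_natCast 2 2]
    norm_num
  have h5 : L ^ (2 - δ) = L ^ 2 / L ^ δ := by
    rw [Real.rpow_sub h0]
    congr 1
    exact Real.rpow_natCast L 2
  have h6 : 0 ≤ L ^ 2 / L ^ δ := by positivity
  rw [← h5] at h6 ⊢
  calc (1 + L) ^ (2 - δ) ≤ 2 ^ (2 - δ) * L ^ (2 - δ) := by rw [← h2]; exact h1
    _ ≤ 4 * L ^ (2 - δ) := mul_le_mul_of_nonneg_right (by rw [← h4]; exact h3) h6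

private theorem lim_one (e : ED ι α) (i : ι) (hi : i ∈ e.P) :
    ∃ M : ℝ, 0 ≤ M ∧ ∀ Y, 1 ≤ Y → e.E i Y ≤ M * Y := by
  choose Cx hCx using e.F1
  refine ⟨e.C + e.C * ∑ x ∈ e.Z i, |Cx x|, ?_, fun Y hY => ?_⟩
  · have h1 : 0 ≤ ∑ x ∈ e.Z i, |Cx x| := Finset.sum_nonneg fun x _ => abs_nonneg _
    have h2 := e.C1
    positivity
  · have hC : 0 ≤ e.C := le_trans zero_le_one e.C1
    have h1 := e.E1 i hi Y hY
    have h2 : ∑ x ∈ e.Z i, e.F x Y ≤ ∑ x ∈ e.Z i, |Cx x| * Y := Finset.sum_le_sum fun x _ =>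
      (hCx x Y hY).trans (mul_le_mul_of_nonneg_right (le_abs_self _) (by linarith))
    rw [← Finset.sum_mul] at h2
    calc e.E i Y ≤ e.C + e.C * ∑ x ∈ e.Z i, e.F x Y := h1
      _ ≤ e.C * Y + e.C * ((∑ x ∈ e.Z i, |Cx x|) * Y) :=
          add_le_add (le_mul_of_one_le_right hC hY) (mul_le_mul_of_nonneg_left h2 hC)
      _ = _ := by ring

/-- part (a) -/
private theorem lim_a (e : ED ι α) (R : ℝ) : ∃ M : ℝ, 0 ≤ M ∧ ∀ (X : ℝ) (T : Finset ι), 0 ≤ X →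
    (∀ i ∈ T, i ∈ e.P ∧ e.c i ≤ X ∧ e.c i ≤ R) → ∑ i ∈ T, e.E i (X / e.c i) ≤ M * X := by
  have hex : ∀ i, ∃ M : ℝ, 0 ≤ M ∧ (i ∈ e.P → ∀ Y, 1 ≤ Y → e.E i Y ≤ M * Y) := by
    intro i
    by_cases hi : i ∈ e.P
    · obtain ⟨M, h1, h2⟩ := lim_one e i hi
      exact ⟨M, h1, fun _ => h2⟩
    · exact ⟨0, le_rfl, fun h => absurd h hi⟩
  choose M hM0 hM using hex
  refine ⟨∑ i ∈ (e.fin R).toFinset, M i, Finset.sum_nonneg fun i _ => hM0 i,
    fun X T hX hT => ?_⟩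
  have h1 : ∑ i ∈ T, e.E i (X / e.c i) ≤ ∑ i ∈ T, M i * X := by
    refine Finset.sum_le_sum fun i hi => ?_
    obtain ⟨hP, hcX, _⟩ := hT i hi
    have hc1 := e.c1 i hP
    have hc0 : 0 < e.c i := by linarith
    have h2 := hM i hP (X / e.c i) (by rw [le_div_iff₀ hc0]; linarith)
    refine h2.trans (mul_le_mul_of_nonneg_left ?_ (hM0 i))
    exact div_le_self hX hc1
  refine h1.trans ?_
  rw [← Finset.sum_mul]
  refine mul_le_mul_of_nonneg_right ?_ hX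
  refine Finset.sum_le_sum_of_subset_of_nonneg ?_ fun i _ _ => hM0 i
  intro i hi
  rw [Set.Finite.mem_toFinset]
  exact ⟨(hT i hi).1, (hT i hi).2.2⟩

private theorem lim_k (C η : ℝ) (hη : 0 < η) (k₀ : ℕ) :
    ∃ k₁ : ℕ, k₀ ≤ k₁ ∧ C * (2 : ℝ) ^ (-((k₁ : ℝ) / 2)) ≤ η := by
  have h1 : Tendsto (fun k : ℕ => C * (2 : ℝ) ^ (-((k : ℝ) / 2))) atTop (𝓝 (C * 0)) := by
    refine Tendsto.const_mul C ?_
    have h2 : Tendsto (fun x : ℝ => (2 : ℝ) ^ (-x)) atTop (𝓝 0) := by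
      have h3 := tendsto_rpow_atTop_of_base_lt_one (1 / 2 : ℝ) (by norm_num) (by norm_num)
      refine h3.congr fun x => ?_
      rw [Real.rpow_neg (by norm_num), one_div, Real.inv_rpow (by norm_num)]
    exact h2.comp ((tendsto_natCast_atTop_atTop (R := ℝ)).atTop_div_const (by norm_num))
  rw [mul_zero] at h1
  obtain ⟨k, hk⟩ := ((h1.eventually_le_const hη).and (eventually_ge_atTop k₀)).exists
  exact ⟨k, hk.2, hk.1⟩

private theorem lim_log1 (X : ℝ) (hX : 3 ≤ X) : 1 ≤ Real.log X := by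
  rw [Real.le_log_iff_exp_le (by linarith)]
  have := Real.exp_one_lt_d9
  linarith

theorem err (e : ED ι α) : Tendsto (fun X : ℝ =>
    (∑ i ∈ (e.fin X).toFinset, e.E i (X / e.c i)) / (X * Real.log X ^ 2)) atTop (𝓝 0) := by
  rw [Metric.tendsto_nhds]
  intro η hη
  obtain ⟨Cm, k₀, hCm, hmid⟩ := mid e
  obtain ⟨Ct, hCt, htop⟩ := top e
  obtain ⟨k₁, hk₁, hk₁'⟩ := lim_k (4 * Cm) (η / 4) (by positivity) k₀
  obtain ⟨M, hM0, hM⟩ := lim_a e ((2 : ℝ) ^ k₁)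
  -- the three small terms
  have t1 : Tendsto (fun X : ℝ => M * (1 / Real.log X ^ (2 : ℝ))) atTop (𝓝 (M * 0)) :=
    (lim_inv 2 (by norm_num)).const_mul M
  have t2 : Tendsto (fun X : ℝ => 108 * Ct * (Real.log (Real.log X) ^ 9 / Real.log X ^ e.δ)) atTop
      (𝓝 (108 * Ct * 0)) := (lim_log e.δ e.δ0).const_mul _
  have t3 : Tendsto (fun X : ℝ => 4 * Cm * (1 / Real.log X ^ e.δ)) atTop (𝓝 (4 * Cm * 0)) :=
    (lim_inv e.δ e.δ0).const_mul _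
  rw [mul_zero] at t1 t2 t3
  have hlt : Tendsto (fun X : ℝ => Real.log (Real.log X)) atTop atTop :=
    Real.tendsto_log_atTop.comp Real.tendsto_log_atTop
  have hη4 : (0 : ℝ) < η / 4 := by positivity
  filter_upwards [t1.eventually_lt_const hη4, t2.eventually_lt_const hη4,
    t3.eventually_lt_const hη4, eventually_ge_atTop (3 : ℝ), hlt.eventually_ge_atTop 1]
    with X h1 h2 h3 hX3 hll
  set L := Real.log X with hL
  have hL1 : 1 ≤ L := lim_log1 X hX3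
  have hL0 : 0 < L := by linarith
  have hX0 : 0 < X := by linarith
  set T := (e.fin X).toFinset with hT
  have hTm : ∀ i ∈ T, i ∈ e.P ∧ e.c i ≤ X := by
    intro i hi
    rw [hT, Set.Finite.mem_toFinset] at hi
    exact hi
  set Y₀ : ℝ := 2 * Real.exp (Real.log L ^ 3) with hY₀
  have hexp : 1 ≤ Real.exp (Real.log L ^ 3) := by
    apply Real.one_le_exp
    positivity
  have hY₀2 : 2 ≤ Y₀ := by
    rw [hY₀]
    linarith
  have hlogY : 1 + Real.log Y₀ ≤ 3 * Real.log L ^ 3 := by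
    have h4 : Real.log Y₀ = Real.log 2 + Real.log L ^ 3 := by
      rw [hY₀, Real.log_mul (by norm_num) (Real.exp_pos _).ne', Real.log_exp]
    have h5 : Real.log 2 ≤ 1 := by
      have := Real.log_two_lt_d9
      linarith
    have h6 : 1 ≤ Real.log L ^ 3 := one_le_pow₀ hll
    rw [h4]
    linarith
  have hlogY0 : 0 ≤ 1 + Real.log Y₀ := by
    have := Real.log_nonneg (show 1 ≤ Y₀ by linarith)
    linarith
  -- the three sums
  have s1 : ∑ i ∈ T.filter (fun i => e.c i ≤ (2 : ℝ) ^ k₁), e.E i (X / e.c i) ≤ M * X := by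
    refine hM X _ hX0.le fun i hi => ?_
    rw [Finset.mem_filter] at hi
    exact ⟨(hTm i hi.1).1, (hTm i hi.1).2, hi.2⟩
  have s2 : ∑ i ∈ (T.filter (fun i => ¬ e.c i ≤ (2 : ℝ) ^ k₁)).filter (fun i => X / e.c i ≤ Y₀),
      e.E i (X / e.c i) ≤ Ct * (X * (1 + L) ^ (2 - e.δ) * (1 + Real.log Y₀) ^ 3) := by
    refine htop X Y₀ (by linarith) (by linarith) _ fun i hi => ?_
    rw [Finset.mem_filter, Finset.mem_filter] at hi
    exact ⟨(hTm i hi.1.1).1, (hTm i hi.1.1).2, hi.2⟩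
  have s3 : ∑ i ∈ (T.filter (fun i => ¬ e.c i ≤ (2 : ℝ) ^ k₁)).filter (fun i => ¬ X / e.c i ≤ Y₀),
      e.E i (X / e.c i) ≤ Cm * (X * (1 + L) ^ (2 - e.δ) +
        X * (1 + L) ^ 2 * (2 : ℝ) ^ (-((k₁ : ℝ) / 2))) := by
    refine hmid k₁ hk₁ X hX3 _ fun i hi => ?_
    rw [Finset.mem_filter, Finset.mem_filter] at hi
    obtain ⟨⟨hiT, hi2⟩, hi3⟩ := hi
    obtain ⟨hP, hcX⟩ := hTm i hiT
    have hc0 : 0 < e.c i := lt_of_lt_of_le zero_lt_one (e.c1 i hP)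
    push Not at hi2 hi3
    refine ⟨hP, hi2, ?_, ?_⟩
    · have h4 : 2 < X / e.c i := by linarith
      rw [lt_div_iff₀ hc0] at h4
      exact h4.le
    · have h4 : Real.exp (Real.log L ^ 3) ≤ Y₀ := by
        rw [hY₀]
        have := Real.exp_pos (Real.log L ^ 3)
        linarith
      linarith
  have hsum : ∑ i ∈ T, e.E i (X / e.c i) ≤ M * X +
      (Ct * (X * (1 + L) ^ (2 - e.δ) * (1 + Real.log Y₀) ^ 3) +
      Cm * (X * (1 + L) ^ (2 - e.δ) + X * (1 + L) ^ 2 * (2 : ℝ) ^ (-((k₁ : ℝ) / 2)))) := by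
    rw [← Finset.sum_filter_add_sum_filter_not T (fun i => e.c i ≤ (2 : ℝ) ^ k₁),
      ← Finset.sum_filter_add_sum_filter_not (T.filter (fun i => ¬ e.c i ≤ (2 : ℝ) ^ k₁))
        (fun i => X / e.c i ≤ Y₀)]
    exact add_le_add s1 (add_le_add s2 s3)
  -- estimates
  have hpow := lim_pow e.δ L e.δ0 e.δ1 hL1
  have hLδ : 0 < L ^ e.δ := Real.rpow_pos_of_pos hL0 _
  have hY3 : (1 + Real.log Y₀) ^ 3 ≤ 27 * Real.log L ^ 9 := by
    calc (1 + Real.log Y₀) ^ 3 ≤ (3 * Real.log L ^ 3) ^ 3 := pow_le_pow_left₀ hlogY0 hlogY 3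
      _ = 27 * Real.log L ^ 9 := by ring
  have hL2 : (1 + L) ^ 2 ≤ 4 * L ^ 2 := by nlinarith
  have hden : 0 < X * L ^ 2 := by positivity
  have b2 : Ct * (X * (1 + L) ^ (2 - e.δ) * (1 + Real.log Y₀) ^ 3) ≤
      (108 * Ct * (Real.log L ^ 9 / L ^ e.δ)) * (X * L ^ 2) := by
    have h4 : (1 + L) ^ (2 - e.δ) * (1 + Real.log Y₀) ^ 3 ≤
        (4 * (L ^ 2 / L ^ e.δ)) * (27 * Real.log L ^ 9) := by
      refine mul_le_mul hpow hY3 (by positivity) (by positivity)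
    calc Ct * (X * (1 + L) ^ (2 - e.δ) * (1 + Real.log Y₀) ^ 3) =
        (Ct * X) * ((1 + L) ^ (2 - e.δ) * (1 + Real.log Y₀) ^ 3) := by ring
      _ ≤ (Ct * X) * ((4 * (L ^ 2 / L ^ e.δ)) * (27 * Real.log L ^ 9)) :=
          mul_le_mul_of_nonneg_left h4 (by positivity)
      _ = _ := by ring
  have b3 : Cm * (X * (1 + L) ^ (2 - e.δ) + X * (1 + L) ^ 2 * (2 : ℝ) ^ (-((k₁ : ℝ) / 2))) ≤
      (4 * Cm * (1 / L ^ e.δ)) * (X * L ^ 2) +
        (4 * Cm * (2 : ℝ) ^ (-((k₁ : ℝ) / 2))) * (X * L ^ 2) := by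
    have h4 : 0 ≤ (2 : ℝ) ^ (-((k₁ : ℝ) / 2)) := by positivity
    have h5 : Cm * (X * (1 + L) ^ (2 - e.δ)) ≤ Cm * (X * (4 * (L ^ 2 / L ^ e.δ))) := by gcongr
    have h6 : Cm * (X * (1 + L) ^ 2 * (2 : ℝ) ^ (-((k₁ : ℝ) / 2))) ≤
        Cm * (X * (4 * L ^ 2) * (2 : ℝ) ^ (-((k₁ : ℝ) / 2))) := by gcongr
    calc _ = Cm * (X * (1 + L) ^ (2 - e.δ)) +
        Cm * (X * (1 + L) ^ 2 * (2 : ℝ) ^ (-((k₁ : ℝ) / 2))) := by ring
      _ ≤ _ := add_le_add h5 h6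
      _ = _ := by ring
  have b1 : M * X = (M * (1 / L ^ (2 : ℝ))) * (X * L ^ 2) := by
    have h4 : L ^ (2 : ℝ) = L ^ 2 := Real.rpow_natCast L 2
    rw [h4]
    field_simp
  have hfin : ∑ i ∈ T, e.E i (X / e.c i) < η * (X * L ^ 2) := by
    have h4 : ∑ i ∈ T, e.E i (X / e.c i) ≤ (M * (1 / L ^ (2 : ℝ)) +
        108 * Ct * (Real.log L ^ 9 / L ^ e.δ) + 4 * Cm * (1 / L ^ e.δ) +
        4 * Cm * (2 : ℝ) ^ (-((k₁ : ℝ) / 2))) * (X * L ^ 2) := by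
      refine hsum.trans ?_
      rw [b1]
      linarith
    refine h4.trans_lt (mul_lt_mul_of_pos_right ?_ hden)
    linarith
  have hnn : 0 ≤ ∑ i ∈ T, e.E i (X / e.c i) := Finset.sum_nonneg fun i _ => e.E0 _ _
  rw [Real.dist_eq, sub_zero, abs_of_nonneg (div_nonneg hnn hden.le), div_lt_iff₀ hden]
  exact hfin

end H38.EN
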