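import Pool.Agent.H38.EN.Blk

/-!
# [H38 EN MID] the middle range of the error term (pure analysis), 80-120 lines. File Pool/Agent/H38/EN/Mid.lean

`C', k₀'` from `blk`; `k₀ = max k₀' 1`. For `i ∈ T` let `κ i` be the natural number with `2 ^ κ < c i ≤ 2 ^ (κ + 1)` (`κ = ⌈log₂ c⌉ - 1`, or `Nat.clog`/`Nat.find`; it exists because `c i > 2 ^ k₁ ≥ 1`); `κ i ≥ k₁`. Since `2 ^ (κ + 1) < 2 c i ≤ X`: `log log 2 ^ (κ + 1) ≤ log log X` (both `≥ 0`: `2 ^ (κ + 1) ≥ 4 > e`), so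
`exp ((log log 2 ^ (κ + 1))^3) ≤ exp ((log log X)^3) ≤ X / c i`. `blk` for every fibre of `κ` (`Finset.sum_fiberwise_of_maps_to`, `κ` has values in `[k₁, k₂]` for some `k₂`), and sum: `∑_{i ∈ T} s i ≤ C X (1 + log X)^(2 - δ)` (`e.sm` for `R = X`), `∑_{k ≥ 0} 1 / (k + 1)^2 ≤ 2`, `X ≤ X (1 + log X)^(2 - δ)`,
`∑_{k ≥ k₁} 2^(-(k + 1)/2) ≤ 2^(-k₁/2) * 4` (geometric, ratio `2^(-1/2) ≤ 3/4`).
-/

set_option autoImplicit false

open scoped NumberField Classical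
open Filter Topology

noncomputable section

namespace H38.EN

variable {ι α : Type}

/-- telescoping -/
private theorem mid_tel {f g : ℕ → ℝ} {k₁ : ℕ} (h : ∀ k, k₁ ≤ k → f k ≤ g k - g (k + 1)) (hg : ∀ k, 0 ≤ g k)
    (k₂ : ℕ) : ∑ k ∈ Finset.Ico k₁ k₂, f k ≤ g k₁ := by
  by_cases hk : k₁ ≤ k₂
  · have key : ∑ k ∈ Finset.Ico k₁ k₂, f k ≤ g k₁ - g k₂ := by
      induction k₂, hk using Nat.le_induction with
      | base => simp
      | succ n hn ih =>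
        rw [Finset.sum_Ico_succ_top hn]
        have := h n hn
        linarith
    linarith [hg k₂]
  · rw [Finset.Ico_eq_empty_of_le (by omega), Finset.sum_empty]
    exact hg k₁

private theorem mid_kap {c : ℝ} {k₁ : ℕ} (hc : (2 : ℝ) ^ k₁ < c) : ∃ κ : ℕ, k₁ ≤ κ ∧ (2 : ℝ) ^ κ < c ∧
    c ≤ (2 : ℝ) ^ (κ + 1) := by
  have hc0 : 0 < c := lt_trans (by positivity) hc
  obtain ⟨n, hn⟩ := exists_mem_Ioc_zpow hc0 (one_lt_two : (1 : ℝ) < 2)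
  have h1 : (2 : ℝ) ^ (k₁ : ℤ) < (2 : ℝ) ^ (n + 1) := by
    rw [zpow_natCast]
    exact hc.trans_le hn.2
  have h2 : (k₁ : ℤ) < n + 1 := (zpow_lt_zpow_iff_right₀ one_lt_two).1 h1
  have h3 : 0 ≤ n := by omega
  lift n to ℕ using h3
  refine ⟨n, by omega, ?_, ?_⟩
  · have := hn.1
    rwa [zpow_natCast] at this
  · have := hn.2
    exact_mod_cast this

theorem mid (e : ED ι α) : ∃ (C' : ℝ) (k₀ : ℕ), 0 < C' ∧ ∀ k₁ : ℕ, k₀ ≤ k₁ → ∀ X : ℝ, 3 ≤ X →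
    ∀ T : Finset ι, (∀ i ∈ T, i ∈ e.P ∧ (2 : ℝ) ^ k₁ < e.c i ∧ 2 * e.c i ≤ X ∧
      Real.exp (Real.log (Real.log X) ^ 3) ≤ X / e.c i) →
    ∑ i ∈ T, e.E i (X / e.c i) ≤ C' * (X * (1 + Real.log X) ^ (2 - e.δ) +
      X * (1 + Real.log X) ^ 2 * (2 : ℝ) ^ (-((k₁ : ℝ) / 2))) := by
  obtain ⟨Cb, kb, hCb, hblk⟩ := blk e
  have hC1 := e.C1
  refine ⟨Cb * (e.C + 4), max kb 1, by positivity, fun k₁ hk₁ X hX T hT => ?_⟩
  have hk₁b : kb ≤ k₁ := (le_max_left _ _).trans hk₁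
  have hk₁1 : 1 ≤ k₁ := (le_max_right _ _).trans hk₁
  have hlX : 1 ≤ Real.log X := by
    rw [Real.le_log_iff_exp_le (by linarith)]
    linarith [Real.exp_one_lt_d9]
  have hex : ∀ i ∈ T, ∃ κ : ℕ, k₁ ≤ κ ∧ (2 : ℝ) ^ κ < e.c i ∧ e.c i ≤ (2 : ℝ) ^ (κ + 1) :=
    fun i hi => mid_kap (hT i hi).2.1
  choose! κ hκ1 hκ2 hκ3 using hex
  have hmap : ∀ i ∈ T, κ i ∈ Finset.Ico k₁ (T.sup κ + 1) := by
    intro i hi
    rw [Finset.mem_Ico]
    exact ⟨hκ1 i hi, Nat.lt_succ_of_le (Finset.le_sup (f := κ) hi)⟩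
  have hbl : ∀ k ∈ Finset.Ico k₁ (T.sup κ + 1), ∑ i ∈ T with κ i = k, e.E i (X / e.c i) ≤
      Cb * (∑ i ∈ T with κ i = k, e.s i + X / ((k : ℝ) + 1) ^ 2 +
        X * (1 + Real.log X) ^ 2 * (2 : ℝ) ^ (-(((k : ℝ) + 1) / 2))) := by
    intro k hk
    have hk1 := (Finset.mem_Ico.1 hk).1
    refine hblk k (hk₁b.trans hk1) X (by linarith) _ fun i hi => ?_
    obtain ⟨hiT, hik⟩ := Finset.mem_filter.1 hi
    obtain ⟨h1, h2, h3, h4⟩ := hT i hiT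
    have h5 := hκ2 i hiT
    have h6 := hκ3 i hiT
    rw [hik] at h5 h6
    refine ⟨h1, h5, h6, le_trans (Real.exp_le_exp.2 ?_) h4⟩
    have h7 : (2 : ℝ) ^ (k + 1) ≤ X := by
      rw [pow_succ]
      linarith
    have h8 : Real.log ((2 : ℝ) ^ (k + 1)) ≤ Real.log X := Real.log_le_log (by positivity) h7
    have h9 : 1 ≤ Real.log ((2 : ℝ) ^ (k + 1)) := by
      rw [Real.log_pow]
      have h10 : (2 : ℝ) ≤ ((k + 1 : ℕ) : ℝ) := by
        have : 2 ≤ k + 1 := by omega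
        exact_mod_cast this
      have h11 := Real.log_two_gt_d9
      nlinarith
    exact pow_le_pow_left₀ (Real.log_nonneg h9) (Real.log_le_log (by linarith) h8) 3
  have hs : ∑ i ∈ T, e.s i ≤ e.C * X * (1 + Real.log X) ^ (2 - e.δ) := by
    refine e.sm X (by linarith) T fun i hi => ⟨(hT i hi).1, ?_⟩
    have h1 := (hT i hi).2.2.1
    have h2 := e.c1 i (hT i hi).1
    linarith
  have hA : 1 ≤ (1 + Real.log X) ^ (2 - e.δ) := by
    refine Real.one_le_rpow (by linarith) ?_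
    linarith [e.δ1]
  have hB : ∑ k ∈ Finset.Ico k₁ (T.sup κ + 1), X / ((k : ℝ) + 1) ^ 2 ≤ X := by
    have h1 := mid_tel (f := fun k : ℕ => X / ((k : ℝ) + 1) ^ 2) (g := fun k : ℕ => X / (k : ℝ)) (k₁ := k₁)
      (fun k hk => by
        have hk0 : (1 : ℝ) ≤ (k : ℝ) := by
          have : 1 ≤ k := hk₁1.trans hk
          exact_mod_cast this
        push_cast
        rw [div_sub_div _ _ (by positivity) (by positivity), div_le_div_iff₀ (by positivity) (by positivity)]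
        have h2 : X * ((k : ℝ) + 1) - (k : ℝ) * X = X := by ring
        rw [h2]
        have h3 : (k : ℝ) * ((k : ℝ) + 1) ≤ ((k : ℝ) + 1) ^ 2 := by nlinarith
        exact mul_le_mul_of_nonneg_left h3 (by linarith))
      (fun k => by positivity) (T.sup κ + 1)
    refine h1.trans (div_le_self (by linarith) ?_)
    exact_mod_cast hk₁1
  have hr : (2 : ℝ) ^ (-(1 / 2) : ℝ) ≤ 4 / 5 := by
    have h1 : (2 : ℝ) ^ (-(1 / 2) : ℝ) * (2 : ℝ) ^ (-(1 / 2) : ℝ) = 1 / 2 := by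
      rw [← Real.rpow_add (by norm_num)]
      norm_num
    have h2 : 0 < (2 : ℝ) ^ (-(1 / 2) : ℝ) := by positivity
    nlinarith
  have hG : ∑ k ∈ Finset.Ico k₁ (T.sup κ + 1), (2 : ℝ) ^ (-(((k : ℝ) + 1) / 2)) ≤
      4 * (2 : ℝ) ^ (-((k₁ : ℝ) / 2)) := by
    refine mid_tel (f := fun k : ℕ => (2 : ℝ) ^ (-(((k : ℝ) + 1) / 2)))
      (g := fun k : ℕ => 4 * (2 : ℝ) ^ (-((k : ℝ) / 2))) (k₁ := k₁) (fun k _ => ?_) (fun k => by positivity) _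
    have h1 : (2 : ℝ) ^ (-(((k : ℝ) + 1) / 2)) = (2 : ℝ) ^ (-((k : ℝ) / 2)) * (2 : ℝ) ^ (-(1 / 2) : ℝ) := by
      rw [← Real.rpow_add (by norm_num)]
      congr 1
      ring
    push_cast
    rw [h1]
    have h2 : 0 < (2 : ℝ) ^ (-((k : ℝ) / 2)) := by positivity
    nlinarith
  have hL2 : 0 ≤ X * (1 + Real.log X) ^ 2 := by positivity
  have hP2 : 0 ≤ X * (1 + Real.log X) ^ 2 * (2 : ℝ) ^ (-((k₁ : ℝ) / 2)) := by positivity
  have hP1 : X ≤ X * (1 + Real.log X) ^ (2 - e.δ) := le_mul_of_one_le_right (by linarith) hA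
  rw [← Finset.sum_fiberwise_of_maps_to hmap]
  refine (Finset.sum_le_sum hbl).trans ?_
  rw [← Finset.mul_sum, Finset.sum_add_distrib, Finset.sum_add_distrib, ← Finset.mul_sum,
    Finset.sum_fiberwise_of_maps_to hmap, mul_assoc Cb]
  refine mul_le_mul_of_nonneg_left ?_ hCb.le
  have h1 := mul_le_mul_of_nonneg_left hG hL2
  have h2 : e.C * X * (1 + Real.log X) ^ (2 - e.δ) = e.C * (X * (1 + Real.log X) ^ (2 - e.δ)) := by ring
  rw [h2] at hs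
  have h3 : 0 ≤ e.C * (X * (1 + Real.log X) ^ 2 * (2 : ℝ) ^ (-((k₁ : ℝ) / 2))) := by positivity
  have h4 : X * (1 + Real.log X) ^ 2 * (4 * (2 : ℝ) ^ (-((k₁ : ℝ) / 2))) =
      4 * (X * (1 + Real.log X) ^ 2 * (2 : ℝ) ^ (-((k₁ : ℝ) / 2))) := by ring
  rw [h4] at h1
  set a := X * (1 + Real.log X) ^ (2 - e.δ) with ha
  set b := X * (1 + Real.log X) ^ 2 * (2 : ℝ) ^ (-((k₁ : ℝ) / 2)) with hb
  have h5 : (e.C + 4) * (a + b) = e.C * a + 4 * a + e.C * b + 4 * b := by ring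
  rw [h5]
  have h6 : 0 ≤ a := le_trans (by linarith) hP1
  linarith

end H38.EN
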